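import Pool.Agent.W5h26.EP.Lim

/-!
# Logarithms of Euler products as majorised series
-/

set_option autoImplicit false

open MeasureTheory Filter Topology Complex ComplexConjugate intervalIntegral Set

namespace Pool.Agent.W5h26.EP

variable {V : Type} {N : V → ℕ}

lemma es_log (v : V) (hN : 2 ≤ N v) (k : ℕ) (s : ℂ) :
    es ((k + 1 : ℕ) * Real.log (N v)) s = ((N v : ℂ) ^ (-s)) ^ (k + 1) := by
  have h0 : (N v : ℂ) ≠ 0 := by exact_mod_cast (by omega : N v ≠ 0)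
  rw [Complex.cpow_def_of_ne_zero h0, ← Complex.exp_nat_mul, es]
  congr 1
  rw [← Complex.natCast_log]
  push_cast
  ring

lemma norm_cpow_neg (v : V) (hN : 2 ≤ N v) (s : ℂ) :
    ‖(N v : ℂ) ^ (-s)‖ = (N v : ℝ) ^ (-s.re) := by
  rw [Complex.norm_natCast_cpow_of_pos (by omega)]
  simp

lemma rpow_lt_one (v : V) (hN : 2 ≤ N v) {σ : ℝ} (hσ : 0 < σ) : (N v : ℝ) ^ (-σ) < 1 := by
  refine Real.rpow_lt_one_of_one_lt_of_neg ?_ (by linarith)
  exact_mod_cast (by omega : 1 < N v)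

lemma rpow_le_two (v : V) (hN : 2 ≤ N v) {σ : ℝ} (hσ : 0 < σ) : (N v : ℝ) ^ (-σ) ≤ 2 ^ (-σ) := by
  refine Real.rpow_le_rpow_of_nonpos (by norm_num) ?_ (by linarith)
  exact_mod_cast hN

/-- the series of the logarithm of an Euler product with one factor at every place -/
theorem majH_log [Countable V] (hN : ∀ v, 2 ≤ N v) {c : V → ℂ} {ρ : V → ℝ} (hc : ∀ v, ‖c v‖ ≤ ρ v)
    (hρ : ∀ v, ρ v ≤ 1) (hs : ∀ σ : ℝ, 0 < σ → Summable fun v => ρ v * (N v : ℝ) ^ (-σ)) :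
    MajH (fun s => ∑' v, -Complex.log (1 - c v * (N v : ℂ) ^ (-s)))
      (fun s => ∑' v, -Complex.log (1 - (ρ v : ℂ) * (N v : ℂ) ^ (-s))) ∧
    ∀ s : ℂ, 0 < s.re → HasSum (fun v => -Complex.log (1 - c v * (N v : ℂ) ^ (-s)))
      (∑' v, -Complex.log (1 - c v * (N v : ℂ) ^ (-s))) := by
  have hρ0 : ∀ v, 0 ≤ ρ v := fun v => (norm_nonneg _).trans (hc v)
  set lam : V × ℕ → ℝ := fun x => ((x.2 + 1 : ℕ) : ℝ) * Real.log (N x.1) with hlam
  have hlam0 : ∀ x, 0 ≤ lam x := fun x => mul_nonneg (Nat.cast_nonneg _) (Real.log_natCast_nonneg _)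
  have hexp : ∀ (x : V × ℕ) (σ : ℝ), Real.exp (-(lam x * σ)) = ((N x.1 : ℝ) ^ (-σ)) ^ (x.2 + 1) := by
    intro x σ
    have h0 : (0 : ℝ) < N x.1 := by exact_mod_cast (by have := hN x.1; omega : 0 < N x.1)
    rw [Real.rpow_def_of_pos h0, ← Real.exp_nat_mul]
    congr 1
    rw [hlam]
    ring
  have hb : ∀ σ : ℝ, 0 < σ → Summable fun x : V × ℕ =>
      ρ x.1 ^ (x.2 + 1) / ((x.2 + 1 : ℕ) : ℝ) * Real.exp (-(lam x * σ)) := by
    intro σ hσ
    set q : V → ℝ := fun v => (N v : ℝ) ^ (-σ) with hq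
    have hq0 : ∀ v, 0 ≤ q v := fun v => Real.rpow_nonneg (Nat.cast_nonneg _) _
    have h2 : (2 : ℝ) ^ (-σ) < 1 := Real.rpow_lt_one_of_one_lt_of_neg (by norm_num) (by linarith)
    have h20 : (0 : ℝ) < 2 ^ (-σ) := by positivity
    have hq2 : ∀ v, q v ≤ 2 ^ (-σ) := fun v => rpow_le_two v (hN v) hσ
    have hmaj : Summable fun x : V × ℕ => (ρ x.1 * q x.1) * ((2 : ℝ) ^ (-σ)) ^ x.2 :=
      (hs σ hσ).mul_of_nonneg (summable_geometric_of_lt_one h20.le h2)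
        (fun v => mul_nonneg (hρ0 v) (hq0 v)) (fun k => by positivity)
    refine Summable.of_nonneg_of_le (fun x => ?_) (fun x => ?_) hmaj
    · have := hρ0 x.1
      positivity
    · rw [hexp]
      change ρ x.1 ^ (x.2 + 1) / ((x.2 + 1 : ℕ) : ℝ) * q x.1 ^ (x.2 + 1) ≤ _
      have h3 : ρ x.1 ^ (x.2 + 1) ≤ ρ x.1 := by
        rw [pow_succ]
        exact mul_le_of_le_one_left (hρ0 _) (pow_le_one₀ (hρ0 _) (hρ _))
      have h4 : q x.1 ^ (x.2 + 1) ≤ q x.1 * ((2 : ℝ) ^ (-σ)) ^ x.2 := by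
        rw [pow_succ, mul_comm]
        exact mul_le_mul_of_nonneg_left (pow_le_pow_left₀ (hq0 _) (hq2 _) _) (hq0 _)
      have h5 : ρ x.1 ^ (x.2 + 1) / ((x.2 + 1 : ℕ) : ℝ) ≤ ρ x.1 := by
        refine (div_le_self (pow_nonneg (hρ0 _) _) ?_).trans h3
        have : (0 : ℝ) ≤ x.2 := Nat.cast_nonneg _
        push_cast
        linarith
      calc _ ≤ ρ x.1 * (q x.1 * ((2 : ℝ) ^ (-σ)) ^ x.2) :=
            mul_le_mul h5 h4 (pow_nonneg (hq0 _) _) (hρ0 _)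
        _ = _ := by ring
  -- the sums of a series with dominated coefficients
  have key : ∀ c : V → ℂ, (∀ v, ‖c v‖ ≤ ρ v) → ∀ s : ℂ, 0 < s.re →
      HasSum (fun x : V × ℕ => c x.1 ^ (x.2 + 1) / ((x.2 + 1 : ℕ) : ℂ) * es (lam x) s)
        (∑' v, -Complex.log (1 - c v * (N v : ℂ) ^ (-s))) ∧
      HasSum (fun v => -Complex.log (1 - c v * (N v : ℂ) ^ (-s)))
        (∑' v, -Complex.log (1 - c v * (N v : ℂ) ^ (-s))) := by
    intro c hc s hs0
    have h1 : Summable fun x : V × ℕ => c x.1 ^ (x.2 + 1) / ((x.2 + 1 : ℕ) : ℂ) * es (lam x) s := by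
      refine Summable.of_norm_bounded (hb s.re hs0) fun x => ?_
      rw [norm_mul, es_norm, norm_div, norm_pow, Complex.norm_natCast]
      refine mul_le_mul_of_nonneg_right ?_ (Real.exp_pos _).le
      exact div_le_div_of_nonneg_right (pow_le_pow_left₀ (norm_nonneg _) (hc _) _)
        (Nat.cast_nonneg _)
    have h2 : HasSum (fun v => -Complex.log (1 - c v * (N v : ℂ) ^ (-s)))
        (∑' x : V × ℕ, c x.1 ^ (x.2 + 1) / ((x.2 + 1 : ℕ) : ℂ) * es (lam x) s) := by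
      refine h1.hasSum.prod_fiberwise fun v => ?_
      have hz : ‖c v * (N v : ℂ) ^ (-s)‖ < 1 := by
        rw [norm_mul, norm_cpow_neg v (hN v)]
        calc _ ≤ 1 * (N v : ℝ) ^ (-s.re) :=
              mul_le_mul_of_nonneg_right ((hc v).trans (hρ v)) (by positivity)
          _ < 1 := by rw [one_mul]; exact rpow_lt_one v (hN v) hs0
      have h3 := Complex.hasSum_taylorSeries_neg_log hz
      rw [← hasSum_nat_add_iff' 1] at h3
      simp only [Finset.range_one, Finset.sum_singleton, pow_zero, Nat.cast_zero, div_zero,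
        sub_zero] at h3
      refine h3.congr_fun fun k => ?_
      change c v ^ (k + 1) / ((k + 1 : ℕ) : ℂ) * es (((k + 1 : ℕ) : ℝ) * Real.log (N v)) s = _
      rw [es_log v (hN v), mul_pow]
      ring
    rw [h2.tsum_eq]
    exact ⟨h1.hasSum, h2⟩
  refine ⟨⟨V × ℕ, inferInstance, lam, fun x => c x.1 ^ (x.2 + 1) / ((x.2 + 1 : ℕ) : ℂ),
    fun x => ρ x.1 ^ (x.2 + 1) / ((x.2 + 1 : ℕ) : ℝ), hlam0, fun x => ?_, hb,
    fun s hs0 => (key c hc s hs0).1, fun s hs0 => ?_⟩, fun s hs0 => (key c hc s hs0).2⟩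
  · rw [norm_div, norm_pow, Complex.norm_natCast]
    exact div_le_div_of_nonneg_right (pow_le_pow_left₀ (norm_nonneg _) (hc _) _)
      (Nat.cast_nonneg _)
  · have h1 := (key (fun v => (ρ v : ℂ)) (fun v => by
      rw [Complex.norm_real, Real.norm_of_nonneg (hρ0 v)]) s hs0).1
    refine h1.congr_fun fun x => ?_
    push_cast
    rfl

/-- lifting a limit through the exponential function -/
lemma lift_limit {w : ℝ → ℂ} {c : ℂ} (hw : ∀ σ : ℝ, 0 < σ → ContinuousAt w σ) (hc : c ≠ 0)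
    (h : Tendsto (fun σ => cexp (w σ)) (𝓝[>] 0) (𝓝 c)) : ∃ l : ℂ, Tendsto w (𝓝[>] 0) (𝓝 l) := by
  set u : ℝ → ℂ := fun σ => cexp (w σ) / c with hu
  have hu1 : Tendsto u (𝓝[>] 0) (𝓝 1) := by
    have := h.div_const c
    rwa [div_self hc] at this
  have hev : ∀ᶠ σ in 𝓝[>] (0 : ℝ), u σ ∈ Complex.slitPlane :=
    hu1.eventually (isOpen_slitPlane.mem_nhds one_mem_slitPlane)
  obtain ⟨ρ, hρ0, hρ⟩ := (mem_nhdsGT_iff_exists_Ioo_subset' (zero_lt_one (α := ℝ))).1 hev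
  set k : ℝ → ℂ := fun σ => w σ - Complex.log c - Complex.log (u σ) with hk
  have hkc : ContinuousOn k (Ioo 0 ρ) := by
    intro σ hσ
    have h1 := hw σ hσ.1
    have h2 : ContinuousAt u σ := (h1.cexp).div_const c
    exact ((h1.sub continuousAt_const).sub (h2.clog (hρ hσ))).continuousWithinAt
  have hkv : k '' Ioo 0 ρ ⊆ range fun n : ℤ => (n : ℂ) * (2 * Real.pi * I) := by
    rintro _ ⟨σ, hσ, rfl⟩
    have hus : u σ ≠ 0 := slitPlane_ne_zero (hρ hσ)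
    have h1 : cexp (k σ) = 1 := by
      rw [hk]
      simp only
      rw [Complex.exp_sub, Complex.exp_sub, Complex.exp_log hc, Complex.exp_log hus]
      exact div_self hus
    obtain ⟨n, hn⟩ := Complex.exp_eq_one_iff.1 h1
    exact ⟨n, hn.symm⟩
  have hsub : (k '' Ioo 0 ρ).Subsingleton :=
    (Set.countable_range _).isTotallyDisconnected _ hkv (isPreconnected_Ioo.image k hkc)
  have hmid : ρ / 2 ∈ Ioo 0 ρ := ⟨by have : 0 < ρ := hρ0; linarith, by have : 0 < ρ := hρ0; linarith⟩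
  refine ⟨Complex.log c + k (ρ / 2) + Complex.log 1, ?_⟩
  have h2 : Tendsto (fun σ => Complex.log c + k (ρ / 2) + Complex.log (u σ)) (𝓝[>] 0)
      (𝓝 (Complex.log c + k (ρ / 2) + Complex.log 1)) :=
    tendsto_const_nhds.add (hu1.clog one_mem_slitPlane)
  refine h2.congr' ?_
  have hmem : Ioo 0 ρ ∈ 𝓝[>] (0 : ℝ) := Ioo_mem_nhdsGT hρ0
  filter_upwards [hmem] with σ hσ
  have h3 : k σ = k (ρ / 2) := hsub (mem_image_of_mem k hσ) (mem_image_of_mem k hmid)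
  rw [← h3, hk]
  ring

end Pool.Agent.W5h26.EP
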