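import Pool.Agent.W5h26.EP.Maj

/-!
# Majorants in a half-plane and the exponential function
-/

set_option autoImplicit false

open MeasureTheory Filter Topology Complex ComplexConjugate intervalIntegral

namespace Pool.Agent.W5h26.EP

/-- the exponential `e^{-ls}` -/
noncomputable def es (l : ℝ) (s : ℂ) : ℂ := cexp (-((l : ℂ) * s))

lemma es_norm (l : ℝ) (s : ℂ) : ‖es l s‖ = Real.exp (-(l * s.re)) := by
  unfold es
  rw [Complex.norm_exp]
  simp

lemma es_mul (l m : ℝ) (s : ℂ) : es l s * es m s = es (l + m) s := by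
  unfold es
  rw [← Complex.exp_add]
  congr 1
  push_cast
  ring

/-- the point `σ + it` -/
noncomputable def pt (σ t : ℝ) : ℂ := (σ : ℂ) + (t : ℂ) * I

@[simp] lemma pt_re (σ t : ℝ) : (pt σ t).re = σ := by simp [pt]

lemma pt_cont (σ : ℝ) : Continuous (pt σ) := by
  unfold pt
  fun_prop

lemma es_pt (l σ t : ℝ) : es l (pt σ t) = ((Real.exp (-(l * σ)) : ℝ) : ℂ) * ex l t := by
  unfold es pt ex
  rw [Complex.ofReal_exp, ← Complex.exp_add]
  congr 1
  push_cast
  ring

/-- `F` is a general Dirichlet series in `Re s > 0` whose coefficients are dominated by those of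
`G`. -/
def MajH (F G : ℂ → ℂ) : Prop :=
  ∃ (ι : Type) (_ : Countable ι) (lam : ι → ℝ) (a : ι → ℂ) (b : ι → ℝ),
    (∀ i, 0 ≤ lam i) ∧ (∀ i, ‖a i‖ ≤ b i) ∧
    (∀ σ : ℝ, 0 < σ → Summable fun i => b i * Real.exp (-(lam i * σ))) ∧
    (∀ s : ℂ, 0 < s.re → HasSum (fun i => a i * es (lam i) s) (F s)) ∧
    (∀ s : ℂ, 0 < s.re → HasSum (fun i => (b i : ℂ) * es (lam i) s) (G s))

variable {F G F' G' : ℂ → ℂ}

theorem MajH.add (h : MajH F G) (h' : MajH F' G') :
    MajH (fun s => F s + F' s) (fun s => G s + G' s) := by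
  obtain ⟨ι, hι, lam, a, b, h0, hab, hs, hF, hG⟩ := h
  obtain ⟨κ, hκ, lam', a', b', h0', hab', hs', hF', hG'⟩ := h'
  refine ⟨ι ⊕ κ, inferInstance, Sum.elim lam lam', Sum.elim a a', Sum.elim b b', ?_, ?_, ?_, ?_, ?_⟩
  · rintro (i | i)
    · exact h0 i
    · exact h0' i
  · rintro (i | i)
    · exact hab i
    · exact hab' i
  · intro σ hσ
    exact (HasSum.sum (f := fun i : ι ⊕ κ => Sum.elim b b' i *
      Real.exp (-(Sum.elim lam lam' i * σ))) (hs σ hσ).hasSum (hs' σ hσ).hasSum).summable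
  · intro s hs
    exact HasSum.sum (f := fun i : ι ⊕ κ => Sum.elim a a' i * es (Sum.elim lam lam' i) s)
      (hF s hs) (hF' s hs)
  · intro s hs
    exact HasSum.sum (f := fun i : ι ⊕ κ => ((Sum.elim b b' i : ℝ) : ℂ) *
      es (Sum.elim lam lam' i) s) (hG s hs) (hG' s hs)

theorem MajH.mul (h : MajH F G) (h' : MajH F' G') :
    MajH (fun s => F s * F' s) (fun s => G s * G' s) := by
  obtain ⟨ι, hι, lam, a, b, h0, hab, hs, hF, hG⟩ := h
  obtain ⟨κ, hκ, lam', a', b', h0', hab', hs', hF', hG'⟩ := h'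
  have hb : ∀ i, 0 ≤ b i := fun i => (norm_nonneg _).trans (hab i)
  have hb' : ∀ i, 0 ≤ b' i := fun i => (norm_nonneg _).trans (hab' i)
  have key : ∀ {ι : Type} {lam : ι → ℝ} {b : ι → ℝ}, (∀ σ : ℝ, 0 < σ →
      Summable fun i => b i * Real.exp (-(lam i * σ))) → ∀ {c : ι → ℂ}, (∀ i, ‖c i‖ ≤ b i) →
      ∀ {s : ℂ}, 0 < s.re → Summable fun i => ‖c i * es (lam i) s‖ := by
    intro ι lam b hs c hc s hs0
    refine Summable.of_nonneg_of_le (fun i => norm_nonneg _) (fun i => ?_) (hs s.re hs0)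
    rw [norm_mul, es_norm]
    exact mul_le_mul_of_nonneg_right (hc i) (Real.exp_pos _).le
  have hbc : ∀ {ι : Type} {b : ι → ℝ}, (∀ i, 0 ≤ b i) → ∀ i, ‖(b i : ℂ)‖ ≤ b i := by
    intro ι b hb i
    rw [Complex.norm_real, Real.norm_of_nonneg (hb i)]
  refine ⟨ι × κ, inferInstance, fun x => lam x.1 + lam' x.2, fun x => a x.1 * a' x.2,
    fun x => b x.1 * b' x.2, fun x => add_nonneg (h0 _) (h0' _), fun x => ?_, ?_, ?_, ?_⟩
  · rw [norm_mul]
    exact mul_le_mul (hab _) (hab' _) (norm_nonneg _) (hb _)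
  · intro σ hσ
    refine ((hs σ hσ).mul_of_nonneg (hs' σ hσ) (fun i => mul_nonneg (hb i) (Real.exp_pos _).le)
      (fun i => mul_nonneg (hb' i) (Real.exp_pos _).le)).congr fun x => ?_
    have : Real.exp (-((lam x.1 + lam' x.2) * σ)) =
        Real.exp (-(lam x.1 * σ)) * Real.exp (-(lam' x.2 * σ)) := by
      rw [← Real.exp_add]
      congr 1
      ring
    rw [this]
    ring
  · intro s hs0
    have h1 := summable_mul_of_summable_norm (key hs hab hs0) (key hs' hab' hs0)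
    have h2 := tsum_mul_tsum_of_summable_norm (key hs hab hs0) (key hs' hab' hs0)
    rw [(hF s hs0).tsum_eq, (hF' s hs0).tsum_eq] at h2
    have h3 := h1.hasSum
    rw [← h2] at h3
    refine h3.congr_fun fun x => ?_
    change _ = a x.1 * es (lam x.1) s * (a' x.2 * es (lam' x.2) s)
    rw [← es_mul]
    ring
  · intro s hs0
    have h1 := summable_mul_of_summable_norm (key hs (hbc hb) hs0) (key hs' (hbc hb') hs0)
    have h2 := tsum_mul_tsum_of_summable_norm (key hs (hbc hb) hs0) (key hs' (hbc hb') hs0)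
    rw [(hG s hs0).tsum_eq, (hG' s hs0).tsum_eq] at h2
    have h3 := h1.hasSum
    rw [← h2] at h3
    refine h3.congr_fun fun x => ?_
    change _ = (b x.1 : ℂ) * es (lam x.1) s * ((b' x.2 : ℂ) * es (lam' x.2) s)
    rw [← es_mul]
    push_cast
    ring

theorem MajH.const {c : ℂ} {d : ℝ} (h : ‖c‖ ≤ d) : MajH (fun _ => c) (fun _ => (d : ℂ)) := by
  refine ⟨Unit, inferInstance, fun _ => 0, fun _ => c, fun _ => d, fun _ => le_rfl, fun _ => h,
    fun σ _ => (hasSum_fintype _).summable, fun s _ => ?_, fun s _ => ?_⟩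
  · have h1 := hasSum_fintype (fun _ : Unit => c * es 0 s)
    simpa [es] using h1
  · have h1 := hasSum_fintype (fun _ : Unit => (d : ℂ) * es 0 s)
    simpa [es] using h1

theorem MajH.smul (h : MajH F G) {c : ℂ} {d : ℝ} (hcd : ‖c‖ ≤ d) :
    MajH (fun s => c * F s) (fun s => (d : ℂ) * G s) := (MajH.const hcd).mul h

theorem MajH.pow (h : MajH F G) (n : ℕ) : MajH (fun s => F s ^ n) (fun s => G s ^ n) := by
  induction n with
  | zero =>
    simp only [pow_zero]
    have := MajH.const (c := 1) (d := 1) (by simp)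
    rw [Complex.ofReal_one] at this
    exact this
  | succ n ih =>
    simp only [pow_succ]
    exact ih.mul h

theorem MajH.taylor (h : MajH F G) (n : ℕ) :
    MajH (fun s => ∑ k ∈ Finset.range n, F s ^ k / (k.factorial : ℂ))
      (fun s => ∑ k ∈ Finset.range n, G s ^ k / (k.factorial : ℂ)) := by
  induction n with
  | zero =>
    simp only [Finset.range_zero, Finset.sum_empty]
    have := MajH.const (c := 0) (d := 0) (by simp)
    rw [Complex.ofReal_zero] at this
    exact this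
  | succ n ih =>
    simp only [Finset.sum_range_succ]
    refine ih.add ?_
    have h1 := (h.pow n).smul (c := ((n.factorial : ℂ))⁻¹) (d := ((n.factorial : ℝ))⁻¹) (by
      rw [norm_inv, Complex.norm_natCast])
    refine (show MajH (fun s => F s ^ n / (n.factorial : ℂ)) (fun s => G s ^ n / (n.factorial : ℂ))
      from ?_)
    convert h1 using 2
    · rw [div_eq_inv_mul]
    · rw [div_eq_inv_mul]
      push_cast
      rfl

/-- boundedness -/
theorem MajH.bd (h : MajH F G) {σ : ℝ} (hσ : 0 < σ) :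
    ∃ M : ℝ, ∀ s : ℂ, σ ≤ s.re → ‖F s‖ ≤ M ∧ ‖G s‖ ≤ M := by
  obtain ⟨ι, hι, lam, a, b, h0, hab, hs, hF, hG⟩ := h
  have hb : ∀ i, 0 ≤ b i := fun i => (norm_nonneg _).trans (hab i)
  have key : ∀ c : ι → ℂ, (∀ i, ‖c i‖ ≤ b i) → ∀ s : ℂ, σ ≤ s.re → ∀ i,
      ‖c i * es (lam i) s‖ ≤ b i * Real.exp (-(lam i * σ)) := by
    intro c hc s hs0 i
    rw [norm_mul, es_norm]
    refine mul_le_mul (hc i) (Real.exp_le_exp.2 ?_) (Real.exp_pos _).le (hb i)
    have := mul_le_mul_of_nonneg_left hs0 (h0 i)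
    linarith
  refine ⟨∑' i, b i * Real.exp (-(lam i * σ)), fun s hs0 => ⟨?_, ?_⟩⟩
  · rw [← (hF s (hσ.trans_le hs0)).tsum_eq]
    exact tsum_of_norm_bounded (hs σ hσ).hasSum (key a hab s hs0)
  · rw [← (hG s (hσ.trans_le hs0)).tsum_eq]
    refine tsum_of_norm_bounded (hs σ hσ).hasSum (key (fun i => (b i : ℂ)) (fun i => ?_) s hs0)
    rw [Complex.norm_real, Real.norm_of_nonneg (hb i)]

/-- continuity on the vertical lines -/
theorem MajH.cont (h : MajH F G) {σ : ℝ} (hσ : 0 < σ) :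
    Continuous (fun t => F (pt σ t)) ∧ Continuous (fun t => G (pt σ t)) := by
  obtain ⟨ι, hι, lam, a, b, h0, hab, hs, hF, hG⟩ := h
  have hb : ∀ i, 0 ≤ b i := fun i => (norm_nonneg _).trans (hab i)
  have key : ∀ c : ι → ℂ, (∀ i, ‖c i‖ ≤ b i) →
      Continuous fun t : ℝ => ∑' i, c i * es (lam i) (pt σ t) := by
    intro c hc
    refine continuous_tsum (fun i => ?_) (hs σ hσ) fun i t => ?_
    · refine continuous_const.mul ?_
      unfold es
      exact Complex.continuous_exp.comp (continuous_const.mul (pt_cont σ)).neg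
    · rw [norm_mul, es_norm, pt_re]
      exact mul_le_mul_of_nonneg_right (hc i) (Real.exp_pos _).le
  constructor
  · refine (key a hab).congr fun t => ?_
    exact (hF (pt σ t) (by simpa using hσ)).tsum_eq
  · refine (key (fun i => (b i : ℂ)) fun i => ?_).congr fun t => ?_
    · rw [Complex.norm_real, Real.norm_of_nonneg (hb i)]
    · exact (hG (pt σ t) (by simpa using hσ)).tsum_eq

/-- the majorant principle for differences along vertical lines -/
theorem MajH.diff (h : MajH F G) {σ σ' T : ℝ} (hσ : 0 < σ) (hσ' : σ ≤ σ') (hT : 0 < T) (t₀ : ℝ) :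
    (∫ t in (-T)..T, ‖F (pt σ (t + t₀)) - F (pt σ' (t + t₀))‖ ^ 2) ≤
      2 * ∫ t in (-(2 * T))..(2 * T), ‖G (pt σ t) - G (pt σ' t)‖ ^ 2 := by
  obtain ⟨ι, hι, lam, a, b, h0, hab, hs, hF, hG⟩ := h
  have hb : ∀ i, 0 ≤ b i := fun i => (norm_nonneg _).trans (hab i)
  have hσ'0 : 0 < σ' := hσ.trans_le hσ'
  have hd : ∀ i, 0 ≤ Real.exp (-(lam i * σ)) - Real.exp (-(lam i * σ')) := fun i => by
    rw [sub_nonneg, Real.exp_le_exp]
    have := mul_le_mul_of_nonneg_left hσ' (h0 i)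
    linarith
  have h1 := maj hT lam
    (fun i => a i * ((Real.exp (-(lam i * σ)) - Real.exp (-(lam i * σ')) : ℝ) : ℂ) * ex (lam i) t₀)
    (fun i => b i * (Real.exp (-(lam i * σ)) - Real.exp (-(lam i * σ')))) (by
      refine ((hs σ hσ).sub (hs σ' hσ'0)).congr fun i => ?_
      ring) (fun i => by
      rw [norm_mul, norm_mul, ex_norm, mul_one, Complex.norm_real, Real.norm_of_nonneg (hd i)]
      exact mul_le_mul_of_nonneg_right (hab i) (hd i))
  have e1 : ∀ t : ℝ, (∑' i, a i * ((Real.exp (-(lam i * σ)) - Real.exp (-(lam i * σ')) : ℝ) : ℂ) *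
      ex (lam i) t₀ * ex (lam i) t) = F (pt σ (t + t₀)) - F (pt σ' (t + t₀)) := by
    intro t
    rw [← (hF (pt σ (t + t₀)) (by simpa using hσ)).tsum_eq,
      ← (hF (pt σ' (t + t₀)) (by simpa using hσ'0)).tsum_eq,
      ← (hF (pt σ (t + t₀)) (by simpa using hσ)).summable.tsum_sub
        (hF (pt σ' (t + t₀)) (by simpa using hσ'0)).summable]
    refine tsum_congr fun i => ?_
    rw [es_pt, es_pt, ex_add]
    push_cast
    ring
  have e2 : ∀ t : ℝ, (∑' i, ((b i * (Real.exp (-(lam i * σ)) - Real.exp (-(lam i * σ'))) : ℝ) : ℂ) *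
      ex (lam i) t) = G (pt σ t) - G (pt σ' t) := by
    intro t
    rw [← (hG (pt σ t) (by simpa using hσ)).tsum_eq,
      ← (hG (pt σ' t) (by simpa using hσ'0)).tsum_eq,
      ← (hG (pt σ t) (by simpa using hσ)).summable.tsum_sub
        (hG (pt σ' t) (by simpa using hσ'0)).summable]
    refine tsum_congr fun i => ?_
    rw [es_pt, es_pt]
    push_cast
    ring
  simp only [e1, e2] at h1
  exact h1

/-- the majorant principle along vertical lines -/
theorem MajH.one (h : MajH F G) {σ T : ℝ} (hσ : 0 < σ) (hT : 0 < T) (t₀ : ℝ) :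
    (∫ t in (-T)..T, ‖F (pt σ (t + t₀))‖ ^ 2) ≤
      2 * ∫ t in (-(2 * T))..(2 * T), ‖G (pt σ t)‖ ^ 2 := by
  obtain ⟨ι, hι, lam, a, b, h0, hab, hs, hF, hG⟩ := h
  have h1 := maj hT lam (fun i => a i * ((Real.exp (-(lam i * σ)) : ℝ) : ℂ) * ex (lam i) t₀)
    (fun i => b i * (Real.exp (-(lam i * σ)))) (hs σ hσ) (fun i => by
      rw [norm_mul, norm_mul, ex_norm, mul_one, Complex.norm_real,
        Real.norm_of_nonneg (Real.exp_pos _).le]
      exact mul_le_mul_of_nonneg_right (hab i) (Real.exp_pos _).le)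
  have e1 : ∀ t : ℝ, (∑' i, a i * ((Real.exp (-(lam i * σ)) : ℝ) : ℂ) *
      ex (lam i) t₀ * ex (lam i) t) = F (pt σ (t + t₀)) := by
    intro t
    rw [← (hF (pt σ (t + t₀)) (by simpa using hσ)).tsum_eq]
    refine tsum_congr fun i => ?_
    rw [es_pt, ex_add]
    ring
  have e2 : ∀ t : ℝ, (∑' i, ((b i * (Real.exp (-(lam i * σ))) : ℝ) : ℂ) *
      ex (lam i) t) = G (pt σ t) := by
    intro t
    rw [← (hG (pt σ t) (by simpa using hσ)).tsum_eq]
    refine tsum_congr fun i => ?_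
    rw [es_pt]
    push_cast
    ring
  simp only [e1, e2] at h1
  exact h1

lemma taylor_norm (z : ℂ) (n : ℕ) :
    ‖∑ k ∈ Finset.range n, z ^ k / (k.factorial : ℂ)‖ ≤ Real.exp ‖z‖ := by
  refine (norm_sum_le _ _).trans ?_
  have h1 : ∀ k ∈ Finset.range n, ‖z ^ k / (k.factorial : ℂ)‖ = ‖z‖ ^ k / k.factorial := by
    intro k _
    rw [norm_div, norm_pow, Complex.norm_natCast]
  rw [Finset.sum_congr rfl h1]
  exact Real.sum_le_exp_of_nonneg (norm_nonneg _) n

lemma taylor_tendsto (z : ℂ) :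
    Tendsto (fun n => ∑ k ∈ Finset.range n, z ^ k / (k.factorial : ℂ)) atTop (𝓝 (cexp z)) := by
  have h1 : HasSum (fun k : ℕ => z ^ k / (k.factorial : ℂ)) (cexp z) := by
    rw [Complex.exp_eq_exp_ℂ]
    exact NormedSpace.expSeries_div_hasSum_exp z
  exact h1.tendsto_sum_nat

/-- the majorant principle for the exponential function -/
theorem MajH.exp_one (h : MajH F G) {σ T : ℝ} (hσ : 0 < σ) (hT : 0 < T) (t₀ : ℝ) :
    (∫ t in (-T)..T, ‖cexp (F (pt σ (t + t₀)))‖ ^ 2) ≤
      2 * ∫ t in (-(2 * T))..(2 * T), ‖cexp (G (pt σ t))‖ ^ 2 := by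
  obtain ⟨M, hM⟩ := h.bd hσ
  have hcF : Continuous fun t => F (pt σ (t + t₀)) := (h.cont hσ).1.comp (continuous_add_const t₀)
  have hcG : Continuous fun t => G (pt σ t) := (h.cont hσ).2
  have key : ∀ (f : ℝ → ℂ), Continuous f → (∀ t, ‖f t‖ ≤ M) → ∀ A B : ℝ, Tendsto (fun n : ℕ =>
      ∫ t in A..B, ‖∑ k ∈ Finset.range n, f t ^ k / (k.factorial : ℂ)‖ ^ 2) atTop
      (𝓝 (∫ t in A..B, ‖cexp (f t)‖ ^ 2)) := by
    intro f hf hfM A B
    refine intervalIntegral.tendsto_integral_filter_of_dominated_convergence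
      (fun _ => (Real.exp M) ^ 2) ?_ ?_ (by simp) ?_
    · refine Eventually.of_forall fun n => Continuous.aestronglyMeasurable ?_
      exact ((continuous_finsetSum _ fun i _ => (hf.pow _).div_const _).norm).pow 2
    · refine Eventually.of_forall fun n => Eventually.of_forall fun t _ => ?_
      rw [Real.norm_of_nonneg (by positivity)]
      exact pow_le_pow_left₀ (norm_nonneg _)
        ((taylor_norm _ _).trans (Real.exp_le_exp.2 (hfM t))) 2
    · exact Eventually.of_forall fun t _ => ((taylor_tendsto (f t)).norm).pow 2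
  refine le_of_tendsto_of_tendsto' (key _ hcF (fun t => (hM _ (by simp)).1) (-T) T)
    ((key _ hcG (fun t => (hM _ (by simp)).2) (-(2 * T)) (2 * T)).const_mul 2) fun n => ?_
  exact (h.taylor n).one hσ hT t₀

/-- the majorant principle for differences of the exponential function -/
theorem MajH.exp_diff (h : MajH F G) {σ σ' T : ℝ} (hσ : 0 < σ) (hσ' : σ ≤ σ') (hT : 0 < T)
    (t₀ : ℝ) :
    (∫ t in (-T)..T, ‖cexp (F (pt σ (t + t₀))) - cexp (F (pt σ' (t + t₀)))‖ ^ 2) ≤
      2 * ∫ t in (-(2 * T))..(2 * T), ‖cexp (G (pt σ t)) - cexp (G (pt σ' t))‖ ^ 2 := by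
  obtain ⟨M, hM⟩ := h.bd hσ
  have hσ'0 := hσ.trans_le hσ'
  have hcF : ∀ σ, 0 < σ → Continuous fun t => F (pt σ (t + t₀)) := fun σ hσ =>
    (h.cont hσ).1.comp (continuous_add_const t₀)
  have hcG : ∀ σ, 0 < σ → Continuous fun t => G (pt σ t) := fun σ hσ => (h.cont hσ).2
  have key : ∀ (f g : ℝ → ℂ), Continuous f → Continuous g → (∀ t, ‖f t‖ ≤ M) → (∀ t, ‖g t‖ ≤ M) →
      ∀ A B : ℝ, Tendsto (fun n : ℕ => ∫ t in A..B, ‖∑ k ∈ Finset.range n,
        f t ^ k / (k.factorial : ℂ) - ∑ k ∈ Finset.range n, g t ^ k / (k.factorial : ℂ)‖ ^ 2) atTop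
      (𝓝 (∫ t in A..B, ‖cexp (f t) - cexp (g t)‖ ^ 2)) := by
    intro f g hf hg hfM hgM A B
    refine intervalIntegral.tendsto_integral_filter_of_dominated_convergence
      (fun _ => (Real.exp M + Real.exp M) ^ 2) ?_ ?_ (by simp) ?_
    · refine Eventually.of_forall fun n => Continuous.aestronglyMeasurable ?_
      exact (((continuous_finsetSum _ fun i _ => (hf.pow _).div_const _).sub
        (continuous_finsetSum _ fun i _ => (hg.pow _).div_const _)).norm).pow 2
    · refine Eventually.of_forall fun n => Eventually.of_forall fun t _ => ?_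
      rw [Real.norm_of_nonneg (by positivity)]
      exact pow_le_pow_left₀ (norm_nonneg _) ((norm_sub_le _ _).trans (add_le_add
        ((taylor_norm _ _).trans (Real.exp_le_exp.2 (hfM t)))
        ((taylor_norm _ _).trans (Real.exp_le_exp.2 (hgM t))))) 2
    · exact Eventually.of_forall fun t _ =>
        (((taylor_tendsto (f t)).sub (taylor_tendsto (g t))).norm).pow 2
  refine le_of_tendsto_of_tendsto' (key _ _ (hcF σ hσ) (hcF σ' hσ'0)
    (fun t => (hM _ (by simp)).1) (fun t => (hM _ (by simpa using hσ')).1) (-T) T)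
    ((key _ _ (hcG σ hσ) (hcG σ' hσ'0) (fun t => (hM _ (by simp)).2)
      (fun t => (hM _ (by simpa using hσ')).2) (-(2 * T)) (2 * T)).const_mul 2) fun n => ?_
  exact (h.taylor n).diff hσ hσ' hT t₀

end Pool.Agent.W5h26.EP
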