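import Pool.Agent.W5h26.EP.Step

/-!
# Boundary functions and almost periods
-/

set_option autoImplicit false

open MeasureTheory Filter Topology Complex ComplexConjugate intervalIntegral Set ENNReal

namespace Pool.Agent.W5h26.EP

/-- the `p`-th power mean over the window `[t₀, t₀ + 1]` -/
noncomputable def win (p : ℝ) (f : ℝ → ℂ) (t₀ : ℝ) : ℝ≥0∞ :=
  ∫⁻ t in Icc t₀ (t₀ + 1), ‖f t‖ₑ ^ p

lemma enorm_rpow (z : ℂ) {p : ℝ} (hp : 0 ≤ p) : ‖z‖ₑ ^ p = ENNReal.ofReal (‖z‖ ^ p) := by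
  rw [← ENNReal.ofReal_rpow_of_nonneg (norm_nonneg _) hp, ofReal_norm]

lemma win_le {f : ℝ → ℂ} (hf : Continuous f) {p ε : ℝ} (hp : 0 < p) (t₀ : ℝ)
    (h : (∫ t in t₀..(t₀ + 1), ‖f t‖ ^ p) ≤ ε) : win p f t₀ ≤ ENNReal.ofReal ε := by
  unfold win
  simp only [enorm_rpow _ hp.le]
  rw [intervalIntegral.integral_of_le (by linarith), ← integral_Icc_eq_integral_Ioc] at h
  have hc : Continuous fun t => ‖f t‖ ^ p := hf.norm.rpow_const fun _ => Or.inr hp.le
  rw [← ofReal_integral_eq_lintegral_ofReal (hc.integrableOn_Icc)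
    (Eventually.of_forall fun t => by positivity)]
  exact ENNReal.ofReal_le_ofReal h

lemma win_add_le {f g : ℝ → ℂ} {p : ℝ} (hp : 0 < p) (hp1 : p ≤ 1) (t₀ : ℝ)
    (hf : AEMeasurable f) : win p (fun t => f t + g t) t₀ ≤ win p f t₀ + win p g t₀ := by
  unfold win
  rw [← lintegral_add_left' ((hf.enorm.pow_const p).restrict)]
  refine lintegral_mono fun t => ?_
  refine (ENNReal.rpow_le_rpow (enorm_add_le _ _) hp.le).trans ?_
  exact ENNReal.rpow_add_le_add_rpow _ _ hp.le hp1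

lemma win_shift (f : ℝ → ℂ) (p τ t₀ : ℝ) : win p (fun t => f (t + τ)) t₀ = win p f (t₀ + τ) := by
  unfold win
  have h1 : MeasurePreserving (fun t : ℝ => t + τ) volume volume := measurePreserving_add_right _ τ
  have h2 := h1.setLIntegral_comp_preimage_emb (measurableEmbedding_addRight τ)
    (fun t => ‖f t‖ₑ ^ p) (Icc (t₀ + τ) (t₀ + τ + 1))
  rw [← h2]
  congr 2
  ext t
  simp only [mem_Icc, mem_preimage]
  constructor
  · rintro ⟨a, b⟩
    constructor <;> linarith
  · rintro ⟨a, b⟩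
    constructor <;> linarith

variable {F G : ℂ → ℂ}

/-- `l` is the radial boundary function of `exp F` -/
def IsBd (F : ℂ → ℂ) (l : ℝ → ℂ) : Prop :=
  ∀ᵐ t : ℝ, Tendsto (fun σ : ℝ => cexp (F (pt σ t))) (𝓝[>] 0) (𝓝 (l t))

lemma seq_tendsto {σ : ℝ} (hσ : 0 < σ) :
    Tendsto (fun n : ℕ => σ / ((n : ℝ) + 1)) atTop (𝓝[>] 0) := by
  refine tendsto_nhdsWithin_iff.2 ⟨?_, Eventually.of_forall fun n => ?_⟩
  · have h1 := (tendsto_one_div_add_atTop_nhds_zero_nat (𝕜 := ℝ)).const_mul σ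
    rw [mul_zero] at h1
    refine h1.congr fun n => ?_
    ring
  · change (0 : ℝ) < _
    positivity

lemma expF_cont (hF : MajH F G) {σ : ℝ} (hσ : 0 < σ) : Continuous fun t => cexp (F (pt σ t)) :=
  Complex.continuous_exp.comp (hF.cont hσ).1

lemma IsBd.aemeas (hF : MajH F G) {l : ℝ → ℂ} (hl : IsBd F l) : AEMeasurable l := by
  refine aemeasurable_of_tendsto_metrizable_ae atTop (f := fun n : ℕ => fun t : ℝ =>
    cexp (F (pt (1 / ((n : ℝ) + 1)) t)))
    (fun n => (expF_cont hF (by positivity)).measurable.aemeasurable) ?_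
  filter_upwards [hl] with t ht
  exact ht.comp (seq_tendsto one_pos)

/-- Fatou -/
theorem fatou (hF : MajH F G) {l : ℝ → ℂ} (hl : IsBd F l) {p ε δ : ℝ} (hp : 0 < p)
    (hδ : ∀ σ σ' : ℝ, 0 < σ → σ ≤ σ' → σ' < δ →
      ∀ t₀ : ℝ, (∫ t in t₀..(t₀ + 1), ‖cexp (F (pt σ t)) - cexp (F (pt σ' t))‖ ^ p) ≤ ε)
    {σ : ℝ} (hσ : 0 < σ) (hσδ : σ < δ) (t₀ : ℝ) :
    win p (fun t => l t - cexp (F (pt σ t))) t₀ ≤ ENNReal.ofReal ε := by
  set f : ℕ → ℝ → ℂ := fun n t => cexp (F (pt (σ / ((n : ℝ) + 1)) t)) - cexp (F (pt σ t)) with hf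
  have hpos : ∀ n : ℕ, 0 < σ / ((n : ℝ) + 1) := fun n => by positivity
  have hcf : ∀ n, Continuous (f n) := fun n => (expF_cont hF (hpos n)).sub (expF_cont hF hσ)
  have h1 : ∀ n, win p (f n) t₀ ≤ ENNReal.ofReal ε := by
    intro n
    refine win_le (hcf n) hp t₀ (hδ _ _ (hpos n) ?_ hσδ t₀)
    refine div_le_self hσ.le ?_
    have : (0 : ℝ) ≤ n := Nat.cast_nonneg n
    linarith
  have h2 : win p (fun t => l t - cexp (F (pt σ t))) t₀ ≤
      ∫⁻ t in Icc t₀ (t₀ + 1), liminf (fun n => ‖f n t‖ₑ ^ p) atTop := by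
    unfold win
    refine lintegral_mono_ae (ae_restrict_of_ae ?_)
    filter_upwards [hl] with t ht
    have h3 : Tendsto (fun n => f n t) atTop (𝓝 (l t - cexp (F (pt σ t)))) :=
      (ht.comp (seq_tendsto hσ)).sub_const _
    have h4 : Tendsto (fun n => ‖f n t‖ₑ ^ p) atTop (𝓝 (‖l t - cexp (F (pt σ t))‖ₑ ^ p)) :=
      (ENNReal.continuous_rpow_const.tendsto _).comp h3.enorm
    rw [h4.liminf_eq]
  refine h2.trans ((lintegral_liminf_le fun n => ?_).trans ?_)
  · exact (hcf n).measurable.enorm.pow_const p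
  · refine liminf_le_of_le (by isBoundedDefault) fun b hb => ?_
    obtain ⟨n, hn⟩ := hb.exists
    exact hn.trans (h1 n)

/-! ### Almost periods -/

/-- relatively dense sets -/
def RelDense (P : Set ℝ) : Prop := ∃ L : ℝ, ∀ x : ℝ, ∃ τ ∈ P, x ≤ τ ∧ τ ≤ x + L

lemma ex_sub_one_sq (l t : ℝ) : ‖ex l t - 1‖ ^ 2 = 2 * (1 - (ex l t).re) := by
  have h1 : ‖ex l t - 1‖ ^ 2 = ((ex l t).re - 1) ^ 2 + ((ex l t).im) ^ 2 := by
    rw [← Complex.normSq_eq_norm_sq, Complex.normSq_apply]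
    simp
    ring
  have h2 : (ex l t).re ^ 2 + (ex l t).im ^ 2 = 1 := by
    have := Complex.normSq_eq_norm_sq (ex l t)
    rw [ex_norm, Complex.normSq_apply] at this
    nlinarith
  rw [h1]
  nlinarith

/-- the set of almost periods -/
def Per (G : ℂ → ℂ) (σ η : ℝ) : Set ℝ := {τ | (G (pt σ 0) - G (pt σ τ)).re ≤ η}

lemma wsum {ι : Type} {lam : ι → ℝ} {b : ι → ℝ}
    (hG : ∀ s : ℂ, 0 < s.re → HasSum (fun i => (b i : ℂ) * es (lam i) s) (G s))
    {σ : ℝ} (hσ : 0 < σ) (τ : ℝ) :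
    HasSum (fun i => b i * Real.exp (-(lam i * σ)) * ‖ex (lam i) τ - 1‖ ^ 2)
      (2 * (G (pt σ 0) - G (pt σ τ)).re) := by
  have h1 := (hG (pt σ 0) (by simpa using hσ)).sub (hG (pt σ τ) (by simpa using hσ))
  have h2 := (Complex.hasSum_re h1).mul_left 2
  refine h2.congr_fun fun i => ?_
  rw [es_pt, es_pt, ex_sub_one_sq]
  have h3 : ex (lam i) 0 = 1 := by simp [ex]
  rw [h3, mul_one, Complex.sub_re, Complex.re_ofReal_mul, Complex.re_ofReal_mul,
    Complex.re_ofReal_mul, Complex.ofReal_re]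
  ring

/-- translation by an almost period -/
theorem trans_le (hF : MajH F G) {σ η τ : ℝ} (hσ : 0 < σ) (hη : 0 < η) (hτ : τ ∈ Per G σ (η ^ 2))
    (t : ℝ) : ‖F (pt σ (t + τ)) - F (pt σ t)‖ ≤ η * ((G (pt σ 0)).re + 1) ∧
      0 ≤ (G (pt σ 0)).re := by
  obtain ⟨ι, hι, lam, a, b, h0, hab, hs, hF, hG⟩ := hF
  have hb : ∀ i, 0 ≤ b i := fun i => (norm_nonneg _).trans (hab i)
  have hw : HasSum (fun i => b i * Real.exp (-(lam i * σ))) (G (pt σ 0)).re := by
    have h1 := Complex.hasSum_re (hG (pt σ 0) (by simpa using hσ))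
    refine h1.congr_fun fun i => ?_
    have h3 : ex (lam i) 0 = 1 := by simp [ex]
    rw [es_pt, h3, mul_one, ← Complex.ofReal_mul, Complex.ofReal_re]
  have hw0 : 0 ≤ (G (pt σ 0)).re := hw.nonneg fun i => mul_nonneg (hb i) (Real.exp_pos _).le
  refine ⟨?_, hw0⟩
  have h2 := wsum hG hσ τ
  have h3 : HasSum (fun i => a i * es (lam i) (pt σ (t + τ)) - a i * es (lam i) (pt σ t))
      (F (pt σ (t + τ)) - F (pt σ t)) :=
    (hF (pt σ (t + τ)) (by simpa using hσ)).sub (hF (pt σ t) (by simpa using hσ))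
  have h4 : HasSum (fun i => η / 2 * (b i * Real.exp (-(lam i * σ))) + 1 / (2 * η) *
      (b i * Real.exp (-(lam i * σ)) * ‖ex (lam i) τ - 1‖ ^ 2))
      (η / 2 * (G (pt σ 0)).re + 1 / (2 * η) * (2 * (G (pt σ 0) - G (pt σ τ)).re)) :=
    (hw.mul_left _).add (h2.mul_left _)
  have h5 : ‖F (pt σ (t + τ)) - F (pt σ t)‖ ≤
      η / 2 * (G (pt σ 0)).re + 1 / (2 * η) * (2 * (G (pt σ 0) - G (pt σ τ)).re) := by
    rw [← h3.tsum_eq]
    refine tsum_of_norm_bounded h4 fun i => ?_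
    have h6 : a i * es (lam i) (pt σ (t + τ)) - a i * es (lam i) (pt σ t) =
        a i * ((Real.exp (-(lam i * σ)) : ℝ) : ℂ) * ex (lam i) t * (ex (lam i) τ - 1) := by
      rw [es_pt, es_pt, ex_add]
      ring
    rw [h6, norm_mul, norm_mul, norm_mul, ex_norm, mul_one, Complex.norm_real,
      Real.norm_of_nonneg (Real.exp_pos _).le]
    set u := ‖ex (lam i) τ - 1‖ with hu
    have hu0 : 0 ≤ u := norm_nonneg _
    have h7 : u ≤ η / 2 + 1 / (2 * η) * u ^ 2 := by
      have h8 : 0 ≤ (u - η) ^ 2 / (2 * η) := by positivity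
      have h9 : (u - η) ^ 2 / (2 * η) = η / 2 + 1 / (2 * η) * u ^ 2 - u := by
        field_simp
        ring
      linarith
    have he := (Real.exp_pos (-(lam i * σ))).le
    calc ‖a i‖ * Real.exp (-(lam i * σ)) * u ≤ b i * Real.exp (-(lam i * σ)) * u :=
          mul_le_mul_of_nonneg_right (mul_le_mul_of_nonneg_right (hab i) he) hu0
      _ ≤ b i * Real.exp (-(lam i * σ)) * (η / 2 + 1 / (2 * η) * u ^ 2) :=
          mul_le_mul_of_nonneg_left h7 (mul_nonneg (hb i) he)
      _ = _ := by ring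
  have hτ' : (G (pt σ 0) - G (pt σ τ)).re ≤ η ^ 2 := hτ
  have h10 : 1 / (2 * η) * (2 * (G (pt σ 0) - G (pt σ τ)).re) ≤ η := by
    calc _ ≤ 1 / (2 * η) * (2 * η ^ 2) := by
          refine mul_le_mul_of_nonneg_left (by linarith) (by positivity)
      _ = η := by field_simp
  nlinarith [mul_nonneg hη.le hw0]

/-- the almost periods are relatively dense -/
theorem relDense (hG : MajH G G) {σ η : ℝ} (hσ : 0 < σ) (hη : 0 < η) : RelDense (Per G σ η) := by
  obtain ⟨ι, hι, lam, a, b, h0, hab, hs, -, hG⟩ := hG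
  have hb : ∀ i, 0 ≤ b i := fun i => (norm_nonneg _).trans (hab i)
  set w : ι → ℝ := fun i => b i * Real.exp (-(lam i * σ)) with hw
  have hw0 : ∀ i, 0 ≤ w i := fun i => mul_nonneg (hb i) (Real.exp_pos _).le
  -- the compact torus
  let X := ι → Circle
  let x : ℝ → X := fun τ i => Circle.exp (-(lam i * τ))
  have hxe : ∀ τ i, ((x τ i : Circle) : ℂ) = ex (lam i) τ := by
    intro τ i
    change ((Circle.exp (-(lam i * τ)) : Circle) : ℂ) = _
    rw [Circle.coe_exp]
    rfl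
  let D : X → X → ℝ := fun y z => ∑' i, w i * ‖(y i : ℂ) - (z i : ℂ)‖ ^ 2
  have hD2 : ∀ y z : X, ∀ i, ‖(y i : ℂ) - (z i : ℂ)‖ ^ 2 ≤ 4 := by
    intro y z i
    have h1 := norm_sub_le (y i : ℂ) (z i : ℂ)
    rw [Circle.norm_coe, Circle.norm_coe] at h1
    nlinarith [norm_nonneg ((y i : ℂ) - (z i : ℂ))]
  have hsw : Summable fun i => w i * 4 := (hs σ hσ).mul_right 4
  have hDb : ∀ y z : X, ∀ i, ‖w i * ‖(y i : ℂ) - (z i : ℂ)‖ ^ 2‖ ≤ w i * 4 := by
    intro y z i
    rw [Real.norm_of_nonneg (mul_nonneg (hw0 i) (by positivity))]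
    exact mul_le_mul_of_nonneg_left (hD2 y z i) (hw0 i)
  have hDc : ∀ y : X, Continuous (D y) := by
    intro y
    refine continuous_tsum (fun i => ?_) hsw fun i z => hDb y z i
    have h1 : Continuous fun z : X => ((z i : Circle) : ℂ) :=
      continuous_subtype_val.comp (continuous_apply i)
    exact continuous_const.mul ((continuous_const.sub h1).norm.pow 2)
  have hDc' : ∀ z : X, Continuous fun y => D y z := by
    intro z
    refine continuous_tsum (fun i => ?_) hsw fun i y => hDb y z i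
    have h1 : Continuous fun y : X => ((y i : Circle) : ℂ) :=
      continuous_subtype_val.comp (continuous_apply i)
    exact continuous_const.mul ((h1.sub continuous_const).norm.pow 2)
  have hDx : ∀ u v : ℝ, D (x u) (x v) = 2 * (G (pt σ 0) - G (pt σ (v - u))).re := by
    intro u v
    rw [← (wsum hG hσ (v - u)).tsum_eq]
    refine tsum_congr fun i => ?_
    rw [hxe, hxe]
    have h1 : ex (lam i) v = ex (lam i) u * ex (lam i) (v - u) := by
      rw [← ex_add]
      congr 1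
      ring
    have h2 : ‖ex (lam i) u - ex (lam i) v‖ = ‖ex (lam i) (v - u) - 1‖ := by
      rw [h1, show ex (lam i) u - ex (lam i) u * ex (lam i) (v - u) =
        -(ex (lam i) u * (ex (lam i) (v - u) - 1)) by ring, norm_neg, norm_mul, ex_norm, one_mul]
    rw [h2]
  -- a finite cover
  have hcpt : IsCompact (closure (range x)) := isClosed_closure.isCompact
  obtain ⟨T, hT⟩ := hcpt.elim_finite_subcover (fun u : ℝ => {y : X | D (x u) y < η})
    (fun u => isOpen_lt (hDc (x u)) continuous_const) (by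
      intro y hy
      have h1 : {z : X | D z y < η} ∈ 𝓝 y := by
        refine (isOpen_lt (hDc' y) continuous_const).mem_nhds ?_
        change D y y < η
        have : D y y = 0 := by
          change (∑' i, w i * ‖(y i : ℂ) - (y i : ℂ)‖ ^ 2) = 0
          simp
        rw [this]
        exact hη
      obtain ⟨z, hz1, u, rfl⟩ := mem_closure_iff_nhds.1 hy _ h1
      exact mem_iUnion.2 ⟨u, hz1⟩)
  obtain ⟨L, hL⟩ : ∃ L : ℝ, ∀ u ∈ T, |u| ≤ L := by
    refine ⟨∑ u ∈ T, |u|, fun u hu => ?_⟩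
    exact Finset.single_le_sum (f := fun u => |u|) (fun _ _ => abs_nonneg _) hu
  refine ⟨2 * L, fun r => ?_⟩
  obtain ⟨u, hu, hu'⟩ := mem_iUnion₂.1 (hT (subset_closure (mem_range_self (r + L))))
  have h1 : D (x u) (x (r + L)) < η := hu'
  rw [hDx] at h1
  have h2 : (0 : ℝ) ≤ 2 * (G (pt σ 0) - G (pt σ (r + L - u))).re := by
    rw [← hDx]
    exact tsum_nonneg fun i => mul_nonneg (hw0 i) (by positivity)
  have h3 := abs_le.1 (hL u hu)
  refine ⟨r + L - u, ?_, by linarith, by linarith⟩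
  change (G (pt σ 0) - G (pt σ (r + L - u))).re ≤ η
  linarith

lemma exp_sub_le {z w : ℂ} {M D : ℝ} (hw : w.re ≤ M) (h : ‖z - w‖ ≤ D) (hD : D ≤ 1) :
    ‖cexp z - cexp w‖ ≤ Real.exp M * (2 * D) := by
  have h1 : cexp z - cexp w = cexp w * (cexp (z - w) - 1) := by
    rw [mul_sub, ← Complex.exp_add, mul_one]
    congr 2
    ring
  rw [h1, norm_mul, Complex.norm_exp]
  refine mul_le_mul (Real.exp_le_exp.2 hw) ?_ (norm_nonneg _) (Real.exp_pos _).le
  refine (Complex.norm_exp_sub_one_le (h.trans hD)).trans ?_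
  linarith

/-- **the main theorem** for one majorant -/
theorem Edge.main (h : Edge G) {p ε : ℝ} (hp : 0 < p) (hp' : p < 1 / 2) (hε : 0 < ε) :
    ∃ δ : ℝ, 0 < δ ∧ ∃ P : Set ℝ, RelDense P ∧ ∀ F : ℂ → ℂ, MajH F G → ∀ l : ℝ → ℂ, IsBd F l →
      (∀ σ : ℝ, 0 < σ → σ < δ → ∀ t₀ : ℝ,
        win p (fun t => cexp (F (pt σ t)) - l t) t₀ ≤ ENNReal.ofReal ε) ∧
      ∀ τ ∈ P, ∀ t₀ : ℝ, win p (fun t => l (t + τ) - l t) t₀ ≤ ENNReal.ofReal ε := by
  obtain ⟨δ, hδ, hδ1, hu⟩ := h.unif hp hp' (show 0 < ε / 3 by positivity)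
  set σ : ℝ := δ / 2 with hσdef
  have hσ : 0 < σ := by positivity
  have hσδ : σ < δ := by rw [hσdef]; linarith
  set M : ℝ := (G (pt σ 0)).re with hM
  -- the size of the almost periods
  obtain ⟨D, hD0, hD1, hD⟩ : ∃ D : ℝ, 0 < D ∧ D ≤ 1 ∧
      (Real.exp (|M| + 1) * (2 * D)) ^ p ≤ ε / 3 := by
    set κ : ℝ := (ε / 3) ^ (1 / p) with hκ
    have hκ0 : 0 < κ := Real.rpow_pos_of_pos (by positivity) _
    have he := Real.exp_pos (|M| + 1)
    refine ⟨min 1 (κ / (2 * Real.exp (|M| + 1))), lt_min one_pos (by positivity), min_le_left _ _, ?_⟩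
    have h1 : Real.exp (|M| + 1) * (2 * min 1 (κ / (2 * Real.exp (|M| + 1)))) ≤ κ := by
      calc _ ≤ Real.exp (|M| + 1) * (2 * (κ / (2 * Real.exp (|M| + 1)))) := by
            refine mul_le_mul_of_nonneg_left ?_ he.le
            have := min_le_right 1 (κ / (2 * Real.exp (|M| + 1)))
            linarith
        _ = κ := by field_simp
    have h0 : 0 ≤ Real.exp (|M| + 1) * (2 * min 1 (κ / (2 * Real.exp (|M| + 1)))) := by positivity
    refine (Real.rpow_le_rpow h0 h1 hp.le).trans (le_of_eq ?_)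
    rw [hκ, ← Real.rpow_mul (by positivity), one_div, inv_mul_cancel₀ hp.ne', Real.rpow_one]
  set η : ℝ := D / (|M| + 1) with hη
  have hη0 : 0 < η := by positivity
  refine ⟨δ, hδ, Per G σ (η ^ 2), relDense h.self hσ (by positivity), fun F hF l hl => ?_⟩
  have hfat := fun {σ : ℝ} (h0 : 0 < σ) (h1 : σ < δ) (t₀ : ℝ) =>
    fatou hF hl (ε := ε / 3) hp (hu F hF) h0 h1 t₀
  have hswap : ∀ (f g : ℝ → ℂ) (t₀ : ℝ), win p (fun t => f t - g t) t₀ =
      win p (fun t => g t - f t) t₀ := by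
    intro f g t₀
    unfold win
    refine lintegral_congr fun t => ?_
    rw [← enorm_neg, neg_sub]
  have hle3 : ENNReal.ofReal (ε / 3) ≤ ENNReal.ofReal ε :=
    ENNReal.ofReal_le_ofReal (by linarith)
  have hlm := hl.aemeas hF
  refine ⟨fun σ h0 h1 t₀ => ?_, fun τ hτ t₀ => ?_⟩
  · rw [hswap]
    exact (hfat h0 h1 t₀).trans hle3
  · have hAc := expF_cont hF hσ
    have hsplit : (fun t => l (t + τ) - l t) = fun t => (l (t + τ) - cexp (F (pt σ (t + τ)))) +
        ((cexp (F (pt σ (t + τ))) - cexp (F (pt σ t))) + (cexp (F (pt σ t)) - l t)) := by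
      funext t
      ring
    have hm1 : AEMeasurable fun t => l (t + τ) - cexp (F (pt σ (t + τ))) := by
      refine AEMeasurable.sub ?_ ?_
      · exact hlm.comp_quasiMeasurePreserving
          (measurePreserving_add_right volume τ).quasiMeasurePreserving
      · exact (hAc.comp (continuous_add_const τ)).measurable.aemeasurable
    have hm2 : AEMeasurable fun t => cexp (F (pt σ (t + τ))) - cexp (F (pt σ t)) :=
      ((hAc.comp (continuous_add_const τ)).sub hAc).measurable.aemeasurable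
    rw [hsplit]
    refine (win_add_le hp (by linarith) t₀ hm1).trans ?_
    have hw1 : win p (fun t => l (t + τ) - cexp (F (pt σ (t + τ)))) t₀ ≤ ENNReal.ofReal (ε / 3) := by
      rw [win_shift (fun t => l t - cexp (F (pt σ t)))]
      exact hfat hσ hσδ _
    have hw3 : win p (fun t => cexp (F (pt σ t)) - l t) t₀ ≤ ENNReal.ofReal (ε / 3) := by
      rw [hswap]
      exact hfat hσ hσδ t₀
    have hw2 : win p (fun t => cexp (F (pt σ (t + τ))) - cexp (F (pt σ t))) t₀ ≤
        ENNReal.ofReal (ε / 3) := by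
      refine win_le ((hAc.comp (continuous_add_const τ)).sub hAc) hp t₀ ?_
      have hpt : ∀ t : ℝ, ‖cexp (F (pt σ (t + τ))) - cexp (F (pt σ t))‖ ^ p ≤ ε / 3 := by
        intro t
        obtain ⟨b1, b2⟩ := trans_le hF hσ hη0 hτ t
        have hMabs : |M| = M := abs_of_nonneg b2
        have hF1 : ‖F (pt σ t)‖ ≤ M := by
          obtain ⟨ι, hι, lam, a, b, h0, hab, hs, hF, hG⟩ := hF
          have h1 := Complex.hasSum_re (hG (pt σ 0) (by simpa using hσ))
          rw [← (hF (pt σ t) (by simpa using hσ)).tsum_eq]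
          refine tsum_of_norm_bounded h1 fun i => ?_
          have h3 : ex (lam i) 0 = 1 := by simp [ex]
          rw [es_pt, es_pt, h3, mul_one, ← Complex.ofReal_mul, Complex.ofReal_re, norm_mul, norm_mul,
            ex_norm, mul_one, Complex.norm_real, Real.norm_of_nonneg (Real.exp_pos _).le]
          exact mul_le_mul_of_nonneg_right (hab i) (Real.exp_pos _).le
        have hre : (F (pt σ t)).re ≤ |M| + 1 := by
          have := (Complex.re_le_norm _).trans hF1
          linarith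
        have hDD : ‖F (pt σ (t + τ)) - F (pt σ t)‖ ≤ D := by
          refine b1.trans (le_of_eq ?_)
          rw [hη, ← hM, hMabs]
          have : M + 1 ≠ 0 := by positivity
          field_simp
        exact (Real.rpow_le_rpow (norm_nonneg _) (exp_sub_le hre hDD hD1) hp.le).trans hD
      have hi : IntervalIntegrable (fun t => ‖cexp (F (pt σ (t + τ))) - cexp (F (pt σ t))‖ ^ p)
          volume t₀ (t₀ + 1) :=
        ((((hAc.comp (continuous_add_const τ)).sub hAc).norm).rpow_const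
          fun _ => Or.inr hp.le).intervalIntegrable _ _
      have h5 := intervalIntegral.integral_mono_on (by linarith : t₀ ≤ t₀ + 1) hi
        (continuous_const.intervalIntegrable _ _) fun t _ => hpt t
      rw [intervalIntegral.integral_const, smul_eq_mul] at h5
      have h6 : (∫ t in t₀..(t₀ + 1), ‖cexp (F (pt σ (t + τ))) - cexp (F (pt σ t))‖ ^ p) ≤
          ε / 3 := by linarith
      exact h6
    have hfin : ENNReal.ofReal (ε / 3) + (ENNReal.ofReal (ε / 3) + ENNReal.ofReal (ε / 3)) =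
        ENNReal.ofReal ε := by
      rw [← ENNReal.ofReal_add (by positivity) (by positivity),
        ← ENNReal.ofReal_add (by positivity) (by positivity)]
      congr 1
      ring
    rw [← hfin]
    refine add_le_add hw1 ((win_add_le hp (by linarith) t₀ hm2).trans ?_)
    exact add_le_add hw2 hw3

end Pool.Agent.W5h26.EP
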