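import Mathlib

/-!
# The majorant principle for exponential sums

If the coefficients of `f = ∑ aᵢ e(-λᵢ t)` are dominated by those of `g = ∑ bᵢ e(-λᵢ t)` then
`∫_{-T}^T |f|² ≤ 2 ∫_{-2T}^{2T} |g|²`.
-/

set_option autoImplicit false

open MeasureTheory Filter Topology Complex ComplexConjugate intervalIntegral

namespace Pool.Agent.W5h26.EP

/-- `e^{-ilt}` -/
noncomputable def ex (l t : ℝ) : ℂ := cexp (((-(l * t) : ℝ) : ℂ) * I)

lemma ex_norm (l t : ℝ) : ‖ex l t‖ = 1 := Complex.norm_exp_ofReal_mul_I _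

lemma ex_cont (l : ℝ) : Continuous (ex l) := by
  unfold ex
  fun_prop

lemma ex_conj (l t : ℝ) : conj (ex l t) = ex l (-t) := by
  unfold ex
  rw [← Complex.exp_conj, map_mul, conj_I, conj_ofReal]
  congr 1
  push_cast
  ring

lemma ex_add (l t u : ℝ) : ex l (t + u) = ex l t * ex l u := by
  unfold ex
  rw [← Complex.exp_add]
  congr 1
  push_cast
  ring

lemma ex_sub (l x y : ℝ) : ex l (x - y) = ex l x * conj (ex l y) := by
  rw [ex_conj, ← ex_add, sub_eq_add_neg]

lemma ex_mul_conj (l m t : ℝ) : ex l t * conj (ex m t) = ex (l - m) t := by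
  rw [ex_conj]
  unfold ex
  rw [← Complex.exp_add]
  congr 1
  push_cast
  ring

/-- the Fourier transform of the interval -/
noncomputable def Kn (T l : ℝ) : ℂ := ∫ x in (-T)..T, ex l x

lemma double (T l : ℝ) : (∫ y in (-T)..T, ∫ x in (-T)..T, ex l (x - y)) =
    ((‖Kn T l‖ ^ 2 : ℝ) : ℂ) := by
  have h1 : ∀ y : ℝ, (∫ x in (-T)..T, ex l (x - y)) = Kn T l * conj (ex l y) := by
    intro y
    simp_rw [ex_sub]
    rw [intervalIntegral.integral_mul_const]
    rfl
  simp_rw [h1]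
  rw [intervalIntegral.integral_const_mul]
  have h2 : (∫ y in (-T)..T, conj (ex l y)) = conj (Kn T l) := by
    unfold Kn intervalIntegral
    rw [map_sub, integral_conj, integral_conj]
  rw [h2, Complex.mul_conj, Complex.normSq_eq_norm_sq]

variable {ι : Type*}

/-- the mean square of a finite sum -/
lemma J_sum (T : ℝ) (s : Finset ι) (lam : ι → ℝ) (a : ι → ℂ) :
    (((∫ y in (-T)..T, ∫ x in (-T)..T, ‖∑ i ∈ s, a i * ex (lam i) (x - y)‖ ^ 2 : ℝ)) : ℂ) =
      ∑ i ∈ s, ∑ j ∈ s, a i * conj (a j) * ((‖Kn T (lam i - lam j)‖ ^ 2 : ℝ) : ℂ) := by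
  have h0 : ∀ t : ℝ, ((‖∑ i ∈ s, a i * ex (lam i) t‖ ^ 2 : ℝ) : ℂ) =
      ∑ i ∈ s, ∑ j ∈ s, a i * conj (a j) * ex (lam i - lam j) t := by
    intro t
    rw [← Complex.normSq_eq_norm_sq, ← Complex.mul_conj, map_sum, Finset.sum_mul_sum]
    refine Finset.sum_congr rfl fun i _ => Finset.sum_congr rfl fun j _ => ?_
    rw [map_mul, ← ex_mul_conj]
    ring
  have hc : ∀ l y : ℝ, Continuous fun x : ℝ => ex l (x - y) := fun l y =>
    (ex_cont l).comp (continuous_id.sub continuous_const)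
  have hc2 : ∀ l : ℝ, Continuous fun y : ℝ => ∫ x in (-T)..T, ex l (x - y) := by
    intro l
    refine intervalIntegral.continuous_parametric_intervalIntegral_of_continuous' ?_ _ _
    exact (ex_cont l).comp (continuous_snd.sub continuous_fst)
  have h1 : ∀ y : ℝ, ((∫ x in (-T)..T, ‖∑ i ∈ s, a i * ex (lam i) (x - y)‖ ^ 2 : ℝ) : ℂ) =
      ∑ i ∈ s, ∑ j ∈ s, a i * conj (a j) * ∫ x in (-T)..T, ex (lam i - lam j) (x - y) := by
    intro y
    rw [← intervalIntegral.integral_ofReal]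
    simp_rw [h0]
    rw [intervalIntegral.integral_finsetSum fun i _ => Continuous.intervalIntegrable (by
      exact continuous_finsetSum _ fun j _ => continuous_const.mul (hc _ _)) _ _]
    refine Finset.sum_congr rfl fun i _ => ?_
    rw [intervalIntegral.integral_finsetSum fun j _ => Continuous.intervalIntegrable (by
      exact continuous_const.mul (hc _ _)) _ _]
    refine Finset.sum_congr rfl fun j _ => ?_
    rw [intervalIntegral.integral_const_mul]
  rw [← intervalIntegral.integral_ofReal]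
  simp_rw [h1]
  rw [intervalIntegral.integral_finsetSum fun i _ => Continuous.intervalIntegrable (by
    exact continuous_finsetSum _ fun j _ => continuous_const.mul (hc2 _)) _ _]
  refine Finset.sum_congr rfl fun i _ => ?_
  rw [intervalIntegral.integral_finsetSum fun j _ => Continuous.intervalIntegrable (by
    exact continuous_const.mul (hc2 _)) _ _]
  refine Finset.sum_congr rfl fun j _ => ?_
  rw [intervalIntegral.integral_const_mul, double]

lemma J_maj {T : ℝ} (hT : 0 ≤ T) (s : Finset ι) (lam : ι → ℝ) (a : ι → ℂ) (b : ι → ℝ)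
    (hab : ∀ i, ‖a i‖ ≤ b i) :
    (∫ y in (-T)..T, ∫ x in (-T)..T, ‖∑ i ∈ s, a i * ex (lam i) (x - y)‖ ^ 2 : ℝ) ≤
      (∫ y in (-T)..T, ∫ x in (-T)..T, ‖∑ i ∈ s, (b i : ℂ) * ex (lam i) (x - y)‖ ^ 2 : ℝ) := by
  have hJ : ∀ c : ι → ℂ, 0 ≤
      (∫ y in (-T)..T, ∫ x in (-T)..T, ‖∑ i ∈ s, c i * ex (lam i) (x - y)‖ ^ 2 : ℝ) := fun c =>
    intervalIntegral.integral_nonneg (by linarith) fun y _ =>
      intervalIntegral.integral_nonneg (by linarith) fun x _ => by positivity
  have h1 := J_sum T s lam a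
  have h2 := J_sum T s lam (fun i => (b i : ℂ))
  have h3 : (∫ y in (-T)..T, ∫ x in (-T)..T, ‖∑ i ∈ s, a i * ex (lam i) (x - y)‖ ^ 2 : ℝ) =
      ‖∑ i ∈ s, ∑ j ∈ s, a i * conj (a j) * ((‖Kn T (lam i - lam j)‖ ^ 2 : ℝ) : ℂ)‖ := by
    rw [← h1, Complex.norm_real, Real.norm_of_nonneg (hJ a)]
  have h4 : (∫ y in (-T)..T, ∫ x in (-T)..T, ‖∑ i ∈ s, (b i : ℂ) * ex (lam i) (x - y)‖ ^ 2 : ℝ) =
      ∑ i ∈ s, ∑ j ∈ s, b i * b j * ‖Kn T (lam i - lam j)‖ ^ 2 := by
    have : ((∫ y in (-T)..T, ∫ x in (-T)..T,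
        ‖∑ i ∈ s, (b i : ℂ) * ex (lam i) (x - y)‖ ^ 2 : ℝ) : ℂ) =
        ((∑ i ∈ s, ∑ j ∈ s, b i * b j * ‖Kn T (lam i - lam j)‖ ^ 2 : ℝ) : ℂ) := by
      rw [h2]
      push_cast
      simp only [conj_ofReal]
    exact_mod_cast this
  rw [h3, h4]
  refine norm_sum_le_of_le _ fun i _ => norm_sum_le_of_le _ fun j _ => ?_
  rw [norm_mul, norm_mul, RCLike.norm_conj, Complex.norm_real, Real.norm_of_nonneg (by positivity)]
  have hb := (norm_nonneg _).trans (hab i)
  exact mul_le_mul_of_nonneg_right (mul_le_mul (hab i) (hab j) (norm_nonneg _) hb) (by positivity)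

lemma inner_eq (φ : ℝ → ℝ) (T y : ℝ) : (∫ x in (-T)..T, φ (x - y)) = ∫ x in (-T - y)..(T - y), φ x :=
  intervalIntegral.integral_comp_sub_right φ y

lemma inner_cont {φ : ℝ → ℝ} (hφ : Continuous φ) (T : ℝ) :
    Continuous fun y : ℝ => ∫ x in (-T)..T, φ (x - y) := by
  refine intervalIntegral.continuous_parametric_intervalIntegral_of_continuous' ?_ _ _
  exact hφ.comp (continuous_snd.sub continuous_fst)

lemma J_upper {φ : ℝ → ℝ} (hφ : Continuous φ) (h0 : ∀ x, 0 ≤ φ x) {T : ℝ} (hT : 0 < T) :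
    (∫ y in (-T)..T, ∫ x in (-T)..T, φ (x - y)) ≤ 2 * T * ∫ x in (-(2 * T))..(2 * T), φ x := by
  have h1 : (∫ y in (-T)..T, ∫ x in (-T)..T, φ (x - y)) ≤
      ∫ _ in (-T)..T, ∫ x in (-(2 * T))..(2 * T), φ x := by
    refine intervalIntegral.integral_mono_on (by linarith) ((inner_cont hφ T).intervalIntegrable _ _)
      (continuous_const.intervalIntegrable _ _) fun y hy => ?_
    rw [inner_eq]
    refine intervalIntegral.integral_mono_interval ?_ ?_ ?_ (Eventually.of_forall h0)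
      (hφ.intervalIntegrable _ _)
    · linarith [hy.2]
    · linarith
    · linarith [hy.1]
  rw [intervalIntegral.integral_const, smul_eq_mul] at h1
  linarith

lemma J_lower {φ : ℝ → ℝ} (hφ : Continuous φ) (h0 : ∀ x, 0 ≤ φ x) {T : ℝ} (hT : 0 < T) :
    T * (∫ x in (-T)..T, φ x) ≤ ∫ y in (-T)..T, ∫ x in (-T)..T, φ (x - y) := by
  have hi : ∀ a b : ℝ, IntervalIntegrable (fun y => ∫ x in (-T)..T, φ (x - y)) volume a b :=
    fun a b => (inner_cont hφ T).intervalIntegrable _ _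
  rw [← intervalIntegral.integral_add_adjacent_intervals (hi (-T) 0) (hi 0 T),
    ← intervalIntegral.integral_add_adjacent_intervals (hφ.intervalIntegrable (-T) 0)
      (hφ.intervalIntegrable 0 T)]
  have h1 : (∫ _ in (-T)..0, ∫ x in (0 : ℝ)..T, φ x) ≤
      ∫ y in (-T)..0, ∫ x in (-T)..T, φ (x - y) := by
    refine intervalIntegral.integral_mono_on (by linarith) (continuous_const.intervalIntegrable _ _)
      (hi _ _) fun y hy => ?_
    rw [inner_eq]
    refine intervalIntegral.integral_mono_interval ?_ hT.le ?_ (Eventually.of_forall h0)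
      (hφ.intervalIntegrable _ _)
    · linarith [hy.1]
    · linarith [hy.2]
  have h2 : (∫ _ in (0 : ℝ)..T, ∫ x in (-T)..0, φ x) ≤
      ∫ y in (0 : ℝ)..T, ∫ x in (-T)..T, φ (x - y) := by
    refine intervalIntegral.integral_mono_on hT.le (continuous_const.intervalIntegrable _ _)
      (hi _ _) fun y hy => ?_
    rw [inner_eq]
    refine intervalIntegral.integral_mono_interval ?_ (by linarith) ?_ (Eventually.of_forall h0)
      (hφ.intervalIntegrable _ _)
    · linarith [hy.1]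
    · linarith [hy.2]
  rw [intervalIntegral.integral_const, smul_eq_mul] at h1 h2
  linarith

/-- the principle for finite sums -/
lemma fin_maj {T : ℝ} (hT : 0 < T) (s : Finset ι) (lam : ι → ℝ) (a : ι → ℂ) (b : ι → ℝ)
    (hab : ∀ i, ‖a i‖ ≤ b i) :
    (∫ t in (-T)..T, ‖∑ i ∈ s, a i * ex (lam i) t‖ ^ 2) ≤
      2 * ∫ t in (-(2 * T))..(2 * T), ‖∑ i ∈ s, (b i : ℂ) * ex (lam i) t‖ ^ 2 := by
  have hc : ∀ c : ι → ℂ, Continuous fun t : ℝ => ‖∑ i ∈ s, c i * ex (lam i) t‖ ^ 2 := fun c =>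
    ((continuous_finsetSum _ fun i _ => continuous_const.mul (ex_cont _)).norm).pow 2
  have h1 := J_lower (hc a) (fun x => by positivity) hT
  have h2 := J_upper (hc fun i => (b i : ℂ)) (fun x => by positivity) hT
  have h3 := J_maj hT.le s lam a b hab
  have h4 := (h1.trans h3).trans h2
  nlinarith [h4]

/-- **the majorant principle** -/
theorem maj [Countable ι] {T : ℝ} (hT : 0 < T) (lam : ι → ℝ) (a : ι → ℂ) (b : ι → ℝ)
    (hb : Summable b) (hab : ∀ i, ‖a i‖ ≤ b i) :
    (∫ t in (-T)..T, ‖∑' i, a i * ex (lam i) t‖ ^ 2) ≤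
      2 * ∫ t in (-(2 * T))..(2 * T), ‖∑' i, (b i : ℂ) * ex (lam i) t‖ ^ 2 := by
  have hb0 : ∀ i, 0 ≤ b i := fun i => (norm_nonneg _).trans (hab i)
  have key : ∀ c : ι → ℂ, (∀ i, ‖c i‖ ≤ b i) → ∀ A B : ℝ, Tendsto (fun s : Finset ι =>
      ∫ t in A..B, ‖∑ i ∈ s, c i * ex (lam i) t‖ ^ 2) atTop
      (𝓝 (∫ t in A..B, ‖∑' i, c i * ex (lam i) t‖ ^ 2)) := by
    intro c hc A B
    refine intervalIntegral.tendsto_integral_filter_of_dominated_convergence
      (fun _ => (∑' i, b i) ^ 2) ?_ ?_ (by simp) ?_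
    · refine Eventually.of_forall fun s => Continuous.aestronglyMeasurable ?_
      exact ((continuous_finsetSum _ fun i _ => continuous_const.mul (ex_cont _)).norm).pow 2
    · refine Eventually.of_forall fun s => Eventually.of_forall fun t _ => ?_
      rw [Real.norm_of_nonneg (by positivity)]
      refine pow_le_pow_left₀ (norm_nonneg _) ?_ 2
      refine (norm_sum_le_of_le _ fun i _ => ?_).trans (hb.sum_le_tsum s fun i _ => hb0 i)
      rw [norm_mul, ex_norm, mul_one]
      exact hc i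
    · refine Eventually.of_forall fun t _ => ?_
      have h1 : Summable fun i => c i * ex (lam i) t := by
        refine Summable.of_norm_bounded hb fun i => ?_
        rw [norm_mul, ex_norm, mul_one]
        exact hc i
      exact (h1.hasSum.norm).pow 2
  refine le_of_tendsto_of_tendsto' (key a hab (-T) T)
    ((key (fun i => (b i : ℂ)) (fun i => by
      rw [Complex.norm_real, Real.norm_of_nonneg (hb0 i)]) (-(2 * T)) (2 * T)).const_mul 2) ?_
  intro s
  exact fin_maj hT s lam a b hab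

end Pool.Agent.W5h26.EP
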