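import Pool.Agent.W5h26.EP.Half

/-!
# Uniform `L^p` convergence at the edge
-/

set_option autoImplicit false

open MeasureTheory Filter Topology Complex ComplexConjugate intervalIntegral Set

namespace Pool.Agent.W5h26.EP

/-! ### An elementary inequality -/

lemma pow_sub_norm (x y : ℂ) {M : ℝ} (hx : ‖x‖ ≤ M) (hy : ‖y‖ ≤ M) :
    ‖x ^ 5 - y ^ 5‖ ≤ 5 * M ^ 4 * ‖x - y‖ := by
  have hM : 0 ≤ M := (norm_nonneg _).trans hx
  have h1 : x ^ 5 - y ^ 5 = (x ^ 4 + x ^ 3 * y + x ^ 2 * y ^ 2 + x * y ^ 3 + y ^ 4) * (x - y) := by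
    ring
  rw [h1, norm_mul]
  refine mul_le_mul_of_nonneg_right ?_ (norm_nonneg _)
  have h2 : ∀ i j : ℕ, i + j = 4 → ‖x ^ i * y ^ j‖ ≤ M ^ 4 := by
    intro i j hij
    rw [norm_mul, norm_pow, norm_pow, ← hij, pow_add]
    exact mul_le_mul (pow_le_pow_left₀ (norm_nonneg _) hx i) (pow_le_pow_left₀ (norm_nonneg _) hy j)
      (by positivity) (by positivity)
  have e4 := h2 4 0 rfl
  have e3 := h2 3 1 rfl
  have e2 := h2 2 2 rfl
  have e1 := h2 1 3 rfl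
  have e0 := h2 0 4 rfl
  rw [pow_zero, mul_one] at e4
  rw [pow_one] at e3
  rw [pow_one] at e1
  rw [pow_zero, one_mul] at e0
  have t1 := norm_add_le (x ^ 4 + x ^ 3 * y + x ^ 2 * y ^ 2 + x * y ^ 3) (y ^ 4)
  have t2 := norm_add_le (x ^ 4 + x ^ 3 * y + x ^ 2 * y ^ 2) (x * y ^ 3)
  have t3 := norm_add_le (x ^ 4 + x ^ 3 * y) (x ^ 2 * y ^ 2)
  have t4 := norm_add_le (x ^ 4) (x ^ 3 * y)
  linarith

/-- the splitting of the `p`-th power of a difference of fifth powers -/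
lemma split {p p' ε : ℝ} (hp : 0 < p) (hpp : p < p') (hp' : p' < 1) (hε : 0 < ε) :
    ∃ C : ℝ, 0 < C ∧ ∀ x y : ℂ, ‖x ^ 5 - y ^ 5‖ ^ p ≤
      ε * (1 + ‖x ^ 5‖ ^ p' + ‖y ^ 5‖ ^ p') + C * ‖x - y‖ ^ 2 := by
  have hlim : Tendsto (fun R : ℝ => 2 * R ^ (-(p' - p))) atTop (𝓝 0) := by
    have h1 := (tendsto_rpow_neg_atTop (sub_pos.2 hpp)).const_mul 2
    rwa [mul_zero] at h1
  obtain ⟨R, hR, hR1⟩ := ((hlim.eventually (gt_mem_nhds hε)).and (eventually_ge_atTop 1)).exists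
  have hR0 : 0 < R := by linarith
  have hA : 0 < 5 * R ^ 4 := by positivity
  have hA0 : (0 : ℝ) ≤ 5 * R ^ 4 := hA.le
  set A : ℝ := 5 * R ^ 4 with hAdef
  set h : ℝ := ε ^ (1 / p) with hh
  have hh0 : 0 < h := Real.rpow_pos_of_pos hε _
  refine ⟨A ^ 2 * h ^ (p - 2), by positivity, fun x y => ?_⟩
  set M : ℝ := max ‖x‖ ‖y‖ with hM
  have hxM : ‖x‖ ≤ M := le_max_left _ _
  have hyM : ‖y‖ ≤ M := le_max_right _ _
  have hM0 : 0 ≤ M := (norm_nonneg _).trans hxM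
  have hx5 : 0 ≤ ‖x ^ 5‖ ^ p' := Real.rpow_nonneg (norm_nonneg _) _
  have hy5 : 0 ≤ ‖y ^ 5‖ ^ p' := Real.rpow_nonneg (norm_nonneg _) _
  rcases le_or_gt M R with hMR | hMR
  · -- small values
    have h1 : ‖x ^ 5 - y ^ 5‖ ≤ A * ‖x - y‖ := by
      refine (pow_sub_norm x y hxM hyM).trans ?_
      refine mul_le_mul_of_nonneg_right ?_ (norm_nonneg _)
      have := pow_le_pow_left₀ hM0 hMR 4
      linarith
    set u : ℝ := A * ‖x - y‖ with hu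
    have hu0 : 0 ≤ u := mul_nonneg hA.le (norm_nonneg _)
    have h2 : ‖x ^ 5 - y ^ 5‖ ^ p ≤ u ^ p := Real.rpow_le_rpow (norm_nonneg _) h1 hp.le
    rcases le_or_gt u h with huh | huh
    · have h3 : u ^ p ≤ ε := by
        refine (Real.rpow_le_rpow hu0 huh hp.le).trans (le_of_eq ?_)
        rw [hh, ← Real.rpow_mul hε.le, one_div, inv_mul_cancel₀ hp.ne', Real.rpow_one]
      have h4 : 0 ≤ A ^ 2 * h ^ (p - 2) * ‖x - y‖ ^ 2 := by positivity
      nlinarith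
    · have hupos : 0 < u := hh0.trans huh
      have h3 : u ^ p = u ^ 2 * u ^ (p - 2) := by
        rw [← Real.rpow_natCast u 2, ← Real.rpow_add hupos]
        congr 1
        push_cast
        ring
      have h4 : u ^ (p - 2) ≤ h ^ (p - 2) :=
        Real.rpow_le_rpow_of_nonpos hh0 huh.le (by linarith)
      have h5 : u ^ p ≤ A ^ 2 * h ^ (p - 2) * ‖x - y‖ ^ 2 := by
        rw [h3]
        calc u ^ 2 * u ^ (p - 2) ≤ u ^ 2 * h ^ (p - 2) :=
              mul_le_mul_of_nonneg_left h4 (by positivity)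
          _ = A ^ 2 * h ^ (p - 2) * ‖x - y‖ ^ 2 := by rw [hu]; ring
      have h6 : 0 ≤ ε * (1 + ‖x ^ 5‖ ^ p' + ‖y ^ 5‖ ^ p') := by positivity
      linarith
  · -- large values
    have hMpos : 0 < M := hR0.trans hMR
    have hM1 : 1 ≤ M := hR1.trans hMR.le
    have h1 : ‖x ^ 5 - y ^ 5‖ ≤ 2 * M ^ 5 := by
      refine (norm_sub_le _ _).trans ?_
      rw [norm_pow, norm_pow]
      have h2 := pow_le_pow_left₀ (norm_nonneg _) hxM 5
      have h3 := pow_le_pow_left₀ (norm_nonneg _) hyM 5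
      linarith
    have hM5 : 0 < M ^ 5 := by positivity
    have h2 : ‖x ^ 5 - y ^ 5‖ ^ p ≤ 2 * (M ^ 5) ^ p := by
      refine (Real.rpow_le_rpow (norm_nonneg _) h1 hp.le).trans ?_
      rw [Real.mul_rpow (by norm_num) hM5.le]
      refine mul_le_mul_of_nonneg_right ?_ (by positivity)
      calc (2 : ℝ) ^ p ≤ 2 ^ (1 : ℝ) :=
            Real.rpow_le_rpow_of_exponent_le (by norm_num) (by linarith)
        _ = 2 := Real.rpow_one 2
    have h3 : (M ^ 5) ^ p = (M ^ 5) ^ p' * (M ^ 5) ^ (-(p' - p)) := by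
      rw [← Real.rpow_add hM5]
      congr 1
      ring
    have h4 : (M ^ 5) ^ (-(p' - p)) ≤ R ^ (-(p' - p)) := by
      refine Real.rpow_le_rpow_of_nonpos hR0 ?_ (by linarith)
      calc R ≤ M := hMR.le
        _ = M ^ 1 := (pow_one M).symm
        _ ≤ M ^ 5 := pow_le_pow_right₀ hM1 (by norm_num)
    have h5 : (M ^ 5) ^ p' ≤ ‖x ^ 5‖ ^ p' + ‖y ^ 5‖ ^ p' := by
      rw [norm_pow, norm_pow]
      rcases max_choice ‖x‖ ‖y‖ with hm | hm
      · have : M = ‖x‖ := by rw [hM, hm]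
        rw [this]
        rw [norm_pow] at hy5
        linarith
      · have : M = ‖y‖ := by rw [hM, hm]
        rw [this]
        rw [norm_pow] at hx5
        linarith
    have h6 : 0 ≤ (M ^ 5) ^ p' := by positivity
    have h7 : 2 * (M ^ 5) ^ p ≤ ε * (‖x ^ 5‖ ^ p' + ‖y ^ 5‖ ^ p') := by
      rw [h3]
      calc 2 * ((M ^ 5) ^ p' * (M ^ 5) ^ (-(p' - p))) =
            (M ^ 5) ^ p' * (2 * (M ^ 5) ^ (-(p' - p))) := by ring
        _ ≤ (M ^ 5) ^ p' * (2 * R ^ (-(p' - p))) :=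
            mul_le_mul_of_nonneg_left (by linarith) h6
        _ ≤ (M ^ 5) ^ p' * ε := mul_le_mul_of_nonneg_left hR.le h6
        _ ≤ (‖x ^ 5‖ ^ p' + ‖y ^ 5‖ ^ p') * ε := mul_le_mul_of_nonneg_right h5 hε.le
        _ = _ := by ring
    have h8 : 0 ≤ A ^ 2 * h ^ (p - 2) * ‖x - y‖ ^ 2 := by positivity
    nlinarith

/-! ### Majorants with a double pole -/

/-- `G` has real nonnegative coefficients, boundary values at the points `it` with `t ≠ 0` and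
`exp G` grows at most like `t⁻²` near `0`. -/
structure Edge (G : ℂ → ℂ) : Prop where
  self : MajH G G
  lim : ∀ t : ℝ, t ≠ 0 → ∃ l : ℂ, Tendsto (fun σ : ℝ => G (pt σ t)) (𝓝[>] 0) (𝓝 l)
  bd : ∃ C : ℝ, 0 < C ∧ ∀ σ : ℝ, 0 < σ → σ ≤ 1 → ∀ t : ℝ, |t| ≤ 1 → t ≠ 0 →
    ‖cexp (G (pt σ t))‖ ≤ C * |t| ^ (-2 : ℝ)

variable {F G : ℂ → ℂ}

lemma integrable_abs_rpow {r : ℝ} (hr : -1 < r) :
    IntervalIntegrable (fun t : ℝ => |t| ^ r) volume (-1) 1 := by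
  have h1 : IntervalIntegrable (fun t : ℝ => |t| ^ r) volume 0 1 := by
    refine (intervalIntegral.intervalIntegrable_rpow' hr).congr fun t ht => ?_
    rw [uIoc_of_le zero_le_one] at ht
    rw [abs_of_pos ht.1]
  have h2 : IntervalIntegrable (fun t : ℝ => |t| ^ r) volume (-1) 0 := by
    have h3 := (IntervalIntegrable.iff_comp_neg (by simp)).mp h1
    simp only [abs_neg, neg_zero] at h3
    exact h3.symm
  exact h2.trans h1

lemma norm_exp_mul (c : ℝ) (z : ℂ) : ‖cexp ((c : ℂ) * z)‖ = ‖cexp z‖ ^ c := by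
  rw [Complex.norm_exp, Complex.norm_exp, ← Real.exp_mul]
  congr 1
  simp
  ring

lemma Edge.sq_le (h : Edge G) {c : ℝ} (hc : 0 < c) : ∃ C : ℝ, 0 < C ∧ ∀ σ : ℝ, 0 < σ → σ ≤ 1 →
    ∀ t : ℝ, |t| ≤ 1 → t ≠ 0 → ‖cexp ((c : ℂ) * G (pt σ t))‖ ^ 2 ≤ C * |t| ^ (-4 * c : ℝ) := by
  obtain ⟨C, hC, hb⟩ := h.bd
  refine ⟨(C ^ c) ^ 2, by positivity, fun σ h0 h1 t ht ht0 => ?_⟩
  have ht' : 0 < |t| := abs_pos.2 ht0
  rw [norm_exp_mul]
  have h2 := Real.rpow_le_rpow (norm_nonneg _) (hb σ h0 h1 t ht ht0) hc.le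
  rw [Real.mul_rpow hC.le (by positivity), ← Real.rpow_mul ht'.le] at h2
  calc (‖cexp (G (pt σ t))‖ ^ c) ^ 2 ≤ (C ^ c * |t| ^ (-2 * c)) ^ 2 :=
        pow_le_pow_left₀ (by positivity) h2 2
    _ = (C ^ c) ^ 2 * |t| ^ (-4 * c) := by
        rw [mul_pow, ← Real.rpow_natCast (|t| ^ (-2 * c)) 2, ← Real.rpow_mul ht'.le]
        congr 2
        push_cast
        ring

lemma ae_ne : ∀ᵐ t : ℝ, t ≠ 0 := by
  have : (volume : Measure ℝ) {0} = 0 := Real.volume_singleton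
  exact compl_mem_ae_iff.2 this

lemma abs_le_of_mem {t : ℝ} (ht : t ∈ uIoc (-1 : ℝ) 1) : |t| ≤ 1 := by
  rw [uIoc_of_le (by norm_num)] at ht
  exact abs_le.2 ⟨ht.1.le, ht.2⟩

/-- the boundary function of `exp (c G)` in `L²` -/
lemma Edge.tendsto (h : Edge G) {c : ℝ} (hc : 0 < c) (hc' : c < 1 / 4) :
    ∃ E : ℝ → ℂ, Tendsto (fun σ : ℝ => ∫ t in (-1 : ℝ)..1, ‖cexp ((c : ℂ) * G (pt σ t)) - E t‖ ^ 2)
      (𝓝[>] 0) (𝓝 0) ∧ ∀ᶠ σ in 𝓝[>] (0 : ℝ), IntervalIntegrable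
      (fun t => ‖cexp ((c : ℂ) * G (pt σ t)) - E t‖ ^ 2) volume (-1) 1 := by
  classical
  have hE : ∀ t : ℝ, ∃ e : ℂ, t ≠ 0 →
      Tendsto (fun σ : ℝ => cexp ((c : ℂ) * G (pt σ t))) (𝓝[>] 0) (𝓝 e) := by
    intro t
    by_cases ht : t = 0
    · exact ⟨0, fun h => absurd ht h⟩
    · obtain ⟨l, hl⟩ := h.lim t ht
      exact ⟨cexp ((c : ℂ) * l), fun _ => (hl.const_mul _).cexp⟩
  choose E hE using hE
  obtain ⟨C, hC, hb⟩ := h.sq_le hc
  have hev : ∀ᶠ σ in 𝓝[>] (0 : ℝ), 0 < σ ∧ σ ≤ 1 := by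
    filter_upwards [self_mem_nhdsWithin, mem_nhdsWithin_of_mem_nhds (Iio_mem_nhds
      (zero_lt_one (α := ℝ)))] with σ h1 h2
    exact ⟨h1, le_of_lt h2⟩
  have hcont : ∀ σ : ℝ, 0 < σ → Continuous fun t => cexp ((c : ℂ) * G (pt σ t)) := fun σ hσ =>
    Complex.continuous_exp.comp (continuous_const.mul (h.self.cont hσ).1)
  have hEm : AEStronglyMeasurable E volume := by
    refine aestronglyMeasurable_of_tendsto_ae atTop (f := fun n : ℕ => fun t : ℝ =>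
      cexp ((c : ℂ) * G (pt (1 / ((n : ℝ) + 1)) t))) (fun n => (hcont _ (by positivity)).aestronglyMeasurable) ?_
    filter_upwards [ae_ne] with t ht
    refine (hE t ht).comp (tendsto_nhdsWithin_iff.2 ⟨tendsto_one_div_add_atTop_nhds_zero_nat,
      Eventually.of_forall fun n => ?_⟩)
    change (0 : ℝ) < _
    positivity
  have hEb : ∀ t : ℝ, |t| ≤ 1 → t ≠ 0 → ‖E t‖ ^ 2 ≤ C * |t| ^ (-4 * c : ℝ) := by
    intro t ht ht0
    refine le_of_tendsto (((hE t ht0).norm).pow 2) ?_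
    filter_upwards [hev] with σ hσ
    exact hb σ hσ.1 hσ.2 t ht ht0
  have hdom : ∀ σ : ℝ, 0 < σ → σ ≤ 1 → ∀ t : ℝ, |t| ≤ 1 → t ≠ 0 →
      ‖cexp ((c : ℂ) * G (pt σ t)) - E t‖ ^ 2 ≤ 4 * C * |t| ^ (-4 * c : ℝ) := by
    intro σ h0 h1 t ht ht0
    have h2 := norm_sub_le (cexp ((c : ℂ) * G (pt σ t))) (E t)
    have h3 := hb σ h0 h1 t ht ht0
    have h4 := hEb t ht ht0
    have h5 : ‖cexp ((c : ℂ) * G (pt σ t)) - E t‖ ^ 2 ≤
        (‖cexp ((c : ℂ) * G (pt σ t))‖ + ‖E t‖) ^ 2 := pow_le_pow_left₀ (norm_nonneg _) h2 2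
    nlinarith [sq_nonneg (‖cexp ((c : ℂ) * G (pt σ t))‖ - ‖E t‖)]
  have hint : IntervalIntegrable (fun t : ℝ => 4 * C * |t| ^ (-4 * c : ℝ)) volume (-1) 1 :=
    (integrable_abs_rpow (by linarith)).const_mul _
  have hmeas : ∀ σ : ℝ, 0 < σ → AEStronglyMeasurable
      (fun t => ‖cexp ((c : ℂ) * G (pt σ t)) - E t‖ ^ 2) volume := fun σ hσ =>
    (((hcont σ hσ).aestronglyMeasurable.sub hEm).norm).pow 2
  refine ⟨E, ?_, ?_⟩
  · have h0 : (∫ _ in (-1 : ℝ)..1, (0 : ℝ)) = 0 := by simp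
    suffices hsuff : Tendsto (fun σ : ℝ => ∫ t in (-1 : ℝ)..1,
        ‖cexp ((c : ℂ) * G (pt σ t)) - E t‖ ^ 2) (𝓝[>] 0) (𝓝 (∫ _ in (-1 : ℝ)..1, (0 : ℝ))) by
      rwa [h0] at hsuff
    refine intervalIntegral.tendsto_integral_filter_of_dominated_convergence
      (fun t => 4 * C * |t| ^ (-4 * c : ℝ)) ?_ ?_ hint ?_
    · filter_upwards [hev] with σ hσ
      exact (hmeas σ hσ.1).restrict
    · filter_upwards [hev] with σ hσ
      filter_upwards [ae_ne] with t ht0 ht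
      rw [Real.norm_of_nonneg (by positivity)]
      exact hdom σ hσ.1 hσ.2 t (abs_le_of_mem ht) ht0
    · filter_upwards [ae_ne] with t ht0 _
      have h1 := (((hE t ht0).sub_const (E t)).norm).pow 2
      rw [sub_self, norm_zero, zero_pow two_ne_zero] at h1
      exact h1
  · filter_upwards [hev] with σ hσ
    refine hint.mono_fun (hmeas σ hσ.1).restrict ?_
    refine (ae_restrict_iff' measurableSet_uIoc).2 ?_
    filter_upwards [ae_ne] with t ht0 ht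
    rw [Real.norm_of_nonneg (by positivity)]
    exact (hdom σ hσ.1 hσ.2 t (abs_le_of_mem ht) ht0).trans (le_abs_self _)

/-- the `L²` Cauchy property of the majorant -/
lemma Edge.cauchy (h : Edge G) {c ε : ℝ} (hc : 0 < c) (hc' : c < 1 / 4) (hε : 0 < ε) :
    ∃ δ : ℝ, 0 < δ ∧ δ ≤ 1 ∧ ∀ σ σ' : ℝ, 0 < σ → 0 < σ' → σ < δ → σ' < δ →
      (∫ t in (-1 : ℝ)..1, ‖cexp ((c : ℂ) * G (pt σ t)) - cexp ((c : ℂ) * G (pt σ' t))‖ ^ 2) ≤ ε := by
  obtain ⟨E, h1, h2⟩ := h.tendsto hc hc'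
  have h3 := (h1.eventually (gt_mem_nhds (show (0 : ℝ) < ε / 4 by positivity))).and h2
  obtain ⟨u, hu0, hu⟩ := (mem_nhdsGT_iff_exists_Ioo_subset' (zero_lt_one (α := ℝ))).1 h3
  refine ⟨min u 1, lt_min hu0 one_pos, min_le_right _ _, fun σ σ' hσ hσ' hσu hσu' => ?_⟩
  have a1 := hu ⟨hσ, hσu.trans_le (min_le_left _ _)⟩
  have a2 := hu ⟨hσ', hσu'.trans_le (min_le_left _ _)⟩
  have hcont : ∀ σ : ℝ, 0 < σ → Continuous fun t => cexp ((c : ℂ) * G (pt σ t)) := fun σ hσ =>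
    Complex.continuous_exp.comp (continuous_const.mul (h.self.cont hσ).1)
  have h4 : (∫ t in (-1 : ℝ)..1, ‖cexp ((c : ℂ) * G (pt σ t)) - cexp ((c : ℂ) * G (pt σ' t))‖ ^ 2) ≤
      ∫ t in (-1 : ℝ)..1, (2 * ‖cexp ((c : ℂ) * G (pt σ t)) - E t‖ ^ 2 +
        2 * ‖cexp ((c : ℂ) * G (pt σ' t)) - E t‖ ^ 2) := by
    refine intervalIntegral.integral_mono_on (by norm_num) ?_
      ((a1.2.const_mul 2).add (a2.2.const_mul 2)) fun t _ => ?_
    · exact ((((hcont σ hσ).sub (hcont σ' hσ')).norm).pow 2).intervalIntegrable _ _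
    · have h5 := norm_sub_le (cexp ((c : ℂ) * G (pt σ t)) - E t) (cexp ((c : ℂ) * G (pt σ' t)) - E t)
      rw [sub_sub_sub_cancel_right] at h5
      have h6 := pow_le_pow_left₀ (norm_nonneg _) h5 2
      nlinarith [sq_nonneg (‖cexp ((c : ℂ) * G (pt σ t)) - E t‖ -
        ‖cexp ((c : ℂ) * G (pt σ' t)) - E t‖)]
  rw [intervalIntegral.integral_add (a1.2.const_mul 2) (a2.2.const_mul 2),
    intervalIntegral.integral_const_mul, intervalIntegral.integral_const_mul] at h4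
  have a3 := a1.1
  have a4 := a2.1
  linarith

/-- the windows -/
lemma window (f : ℝ → ℝ) (t₀ : ℝ) :
    (∫ t in t₀..(t₀ + 1), f t) = ∫ t in (-(1 / 2) : ℝ)..(1 / 2), f (t + (t₀ + 1 / 2)) := by
  rw [intervalIntegral.integral_comp_add_right]
  congr 1 <;> ring

/-- **the uniform bound** -/
theorem Edge.bound (h : Edge G) {p : ℝ} (hp : 0 < p) (hp' : p < 1 / 2) :
    ∃ C : ℝ, 0 < C ∧ ∀ F : ℂ → ℂ, MajH F G → ∀ σ : ℝ, 0 < σ → σ ≤ 1 → ∀ t₀ : ℝ,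
      (∫ t in t₀..(t₀ + 1), ‖cexp (F (pt σ t))‖ ^ p) ≤ C := by
  obtain ⟨C, hC, hb⟩ := h.sq_le (c := p / 2) (by positivity)
  have hint : IntervalIntegrable (fun t : ℝ => C * |t| ^ (-4 * (p / 2) : ℝ)) volume (-1) 1 :=
    (integrable_abs_rpow (by linarith)).const_mul _
  refine ⟨2 * (∫ t in (-1 : ℝ)..1, C * |t| ^ (-4 * (p / 2) : ℝ)) + 1, ?_, fun F hF σ h0 h1 t₀ => ?_⟩
  · have : 0 ≤ ∫ t in (-1 : ℝ)..1, C * |t| ^ (-4 * (p / 2) : ℝ) :=
      intervalIntegral.integral_nonneg (by norm_num) fun t _ => by positivity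
    linarith
  · have h2 := ((hF.smul (c := ((p / 2 : ℝ) : ℂ)) (d := p / 2) (by
      rw [Complex.norm_real, Real.norm_of_nonneg (by positivity)]))).exp_one h0
      (T := 1 / 2) (by norm_num) (t₀ + 1 / 2)
    rw [window]
    have h3 : ∀ z : ℂ, ‖cexp (((p / 2 : ℝ) : ℂ) * z)‖ ^ 2 = ‖cexp z‖ ^ p := by
      intro z
      rw [norm_exp_mul, ← Real.rpow_natCast, ← Real.rpow_mul (norm_nonneg _)]
      congr 1
      push_cast
      ring
    have h4 : (∫ t in (-(2 * (1 / 2)) : ℝ)..(2 * (1 / 2)),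
        ‖cexp (((p / 2 : ℝ) : ℂ) * G (pt σ t))‖ ^ 2) ≤
        ∫ t in (-1 : ℝ)..1, C * |t| ^ (-4 * (p / 2) : ℝ) := by
      have e1 : (2 * (1 / 2) : ℝ) = 1 := by norm_num
      rw [e1]
      refine intervalIntegral.integral_mono_ae_restrict (by norm_num) ?_ hint ?_
      · exact (((Complex.continuous_exp.comp (continuous_const.mul
          (h.self.cont h0).1)).norm).pow 2).intervalIntegrable _ _
      · refine (ae_restrict_iff' measurableSet_Icc).2 ?_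
        filter_upwards [ae_ne] with t ht0 ht
        exact hb σ h0 h1 t (abs_le.2 ⟨ht.1, ht.2⟩) ht0
    calc (∫ t in (-(1 / 2) : ℝ)..(1 / 2), ‖cexp (F (pt σ (t + (t₀ + 1 / 2))))‖ ^ p) =
          ∫ t in (-(1 / 2) : ℝ)..(1 / 2),
            ‖cexp (((p / 2 : ℝ) : ℂ) * F (pt σ (t + (t₀ + 1 / 2))))‖ ^ 2 := by
          simp only [h3]
      _ ≤ _ := h2
      _ ≤ 2 * (∫ t in (-1 : ℝ)..1, C * |t| ^ (-4 * (p / 2) : ℝ)) := by linarith
      _ ≤ _ := by linarith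

/-- **the uniform Cauchy property** -/
theorem Edge.unif (h : Edge G) {p ε : ℝ} (hp : 0 < p) (hp' : p < 1 / 2) (hε : 0 < ε) :
    ∃ δ : ℝ, 0 < δ ∧ δ ≤ 1 ∧ ∀ F : ℂ → ℂ, MajH F G → ∀ σ σ' : ℝ, 0 < σ → σ ≤ σ' → σ' < δ →
      ∀ t₀ : ℝ, (∫ t in t₀..(t₀ + 1), ‖cexp (F (pt σ t)) - cexp (F (pt σ' t))‖ ^ p) ≤ ε := by
  set p' : ℝ := (p + 1 / 2) / 2 with hp'def
  have hpp : p < p' := by rw [hp'def]; linarith
  have hp'2 : p' < 1 / 2 := by rw [hp'def]; linarith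
  obtain ⟨B, hB, hbd⟩ := h.bound (hp.trans hpp) hp'2
  obtain ⟨C, hC, hs⟩ := split hp hpp (by linarith : p' < 1)
    (show 0 < ε / (2 * (1 + B + B)) by positivity)
  obtain ⟨δ, hδ, hδ1, hc⟩ := h.cauchy (c := 1 / 5) (by norm_num) (by norm_num)
    (show 0 < ε / (4 * C) by positivity)
  refine ⟨δ, hδ, hδ1, fun F hF σ σ' h0 h1 h2 t₀ => ?_⟩
  have h0' := h0.trans_le h1
  have hcF : ∀ σ : ℝ, 0 < σ → Continuous fun t => F (pt σ t) := fun σ hσ => (hF.cont hσ).1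
  set x : ℝ → ℂ := fun t => cexp (((1 / 5 : ℝ) : ℂ) * F (pt σ t)) with hx
  set y : ℝ → ℂ := fun t => cexp (((1 / 5 : ℝ) : ℂ) * F (pt σ' t)) with hy
  have hxc : Continuous x := Complex.continuous_exp.comp (continuous_const.mul (hcF σ h0))
  have hyc : Continuous y := Complex.continuous_exp.comp (continuous_const.mul (hcF σ' h0'))
  have e5 : ∀ z : ℂ, cexp (((1 / 5 : ℝ) : ℂ) * z) ^ 5 = cexp z := by
    intro z
    rw [← Complex.exp_nat_mul]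
    congr 1
    push_cast
    ring
  have hx5 : ∀ t, x t ^ 5 = cexp (F (pt σ t)) := fun t => e5 _
  have hy5 : ∀ t, y t ^ 5 = cexp (F (pt σ' t)) := fun t => e5 _
  have hpc : ∀ {f : ℝ → ℂ}, Continuous f → ∀ {q : ℝ}, 0 < q → ∀ A B : ℝ,
      IntervalIntegrable (fun t => ‖f t‖ ^ q) volume A B := fun hf q hq A B =>
    (hf.norm.rpow_const fun _ => Or.inr hq.le).intervalIntegrable _ _
  have hp'0 : 0 < p' := hp.trans hpp
  have i1 : IntervalIntegrable (fun t => ‖x t ^ 5‖ ^ p') volume t₀ (t₀ + 1) :=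
    hpc ((hxc.pow 5)) hp'0 t₀ (t₀ + 1)
  have i2 : IntervalIntegrable (fun t => ‖y t ^ 5‖ ^ p') volume t₀ (t₀ + 1) :=
    hpc ((hyc.pow 5)) hp'0 t₀ (t₀ + 1)
  have i3 : IntervalIntegrable (fun t => ‖x t - y t‖ ^ 2) volume t₀ (t₀ + 1) :=
    (((hxc.sub hyc).norm).pow 2).intervalIntegrable _ _
  have i0 : IntervalIntegrable (fun _ : ℝ => (1 : ℝ)) volume t₀ (t₀ + 1) :=
    continuous_const.intervalIntegrable _ _
  set η : ℝ := ε / (2 * (1 + B + B)) with hη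
  have h3 : (∫ t in t₀..(t₀ + 1), ‖cexp (F (pt σ t)) - cexp (F (pt σ' t))‖ ^ p) ≤
      ∫ t in t₀..(t₀ + 1), (η * (1 + ‖x t ^ 5‖ ^ p' + ‖y t ^ 5‖ ^ p') + C * ‖x t - y t‖ ^ 2) := by
    refine intervalIntegral.integral_mono_on (by linarith) ?_ ?_ fun t _ => ?_
    · exact hpc ((Complex.continuous_exp.comp (hcF σ h0)).sub
        (Complex.continuous_exp.comp (hcF σ' h0'))) hp _ _
    · exact (((i0.add i1).add i2).const_mul η).add (i3.const_mul C)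
    · rw [← hx5, ← hy5]
      exact hs (x t) (y t)
  rw [intervalIntegral.integral_add (((i0.add i1).add i2).const_mul η) (i3.const_mul C),
    intervalIntegral.integral_const_mul, intervalIntegral.integral_const_mul,
    intervalIntegral.integral_add (i0.add i1) i2, intervalIntegral.integral_add i0 i1,
    intervalIntegral.integral_const, smul_eq_mul, mul_one] at h3
  have h4 : (∫ t in t₀..(t₀ + 1), ‖x t ^ 5‖ ^ p') ≤ B := by
    simp only [hx5]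
    exact hbd F hF σ h0 (h1.trans (h2.le.trans hδ1)) t₀
  have h5 : (∫ t in t₀..(t₀ + 1), ‖y t ^ 5‖ ^ p') ≤ B := by
    simp only [hy5]
    exact hbd F hF σ' h0' (h2.le.trans hδ1) t₀
  have h6 : (∫ t in t₀..(t₀ + 1), ‖x t - y t‖ ^ 2) ≤ 2 * (ε / (4 * C)) := by
    rw [window]
    have h7 := ((hF.smul (c := ((1 / 5 : ℝ) : ℂ)) (d := 1 / 5) (by
      rw [Complex.norm_real, Real.norm_of_nonneg (by positivity)]))).exp_diff h0 h1
      (T := 1 / 2) (by norm_num) (t₀ + 1 / 2)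
    have e1 : (2 * (1 / 2) : ℝ) = 1 := by norm_num
    rw [e1] at h7
    have h8 := hc σ σ' h0 h0' (h1.trans_lt h2) h2
    exact h7.trans (by linarith)
  have h9 : η * (t₀ + 1 - t₀ + (∫ t in t₀..(t₀ + 1), ‖x t ^ 5‖ ^ p') +
      ∫ t in t₀..(t₀ + 1), ‖y t ^ 5‖ ^ p') ≤ ε / 2 := by
    have hη0 : 0 < η := by positivity
    calc _ ≤ η * (1 + B + B) := mul_le_mul_of_nonneg_left (by linarith) hη0.le
      _ = ε / 2 := by rw [hη]; field_simp
  have h10 : C * (∫ t in t₀..(t₀ + 1), ‖x t - y t‖ ^ 2) ≤ ε / 2 := by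
    calc _ ≤ C * (2 * (ε / (4 * C))) := mul_le_mul_of_nonneg_left h6 hC.le
      _ = ε / 2 := by field_simp; ring
  linarith

end Pool.Agent.W5h26.EP
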