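import Pool.Agent.W5h26.EP.Gen
import Pool.Agent.R409.RA.Mean
import Pool.Agent.Y773.HK.Eul
import Pool.Agent.Y772.NZ.Zeta
import Pool.Agent.H332R2.PIT.Analytic
import Pool.Agent.H484R2.Zeta

/-!
# The Dedekind zeta function as a majorant
-/

set_option autoImplicit false

open MeasureTheory Filter Topology Complex ComplexConjugate intervalIntegral Set
open NumberField IsDedekindDomain Pool.Agent.H921R2.TatePole

namespace Pool.Agent.W5h26.EP

variable (K : Type) [Field K] [NumberField K]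

/-- the logarithm of the Dedekind zeta function -/
noncomputable def Zl (s : ℂ) : ℂ :=
  Pool.Agent.Y772.DK.LA (Pool.Agent.Y772.DK.ee (Pool.Agent.Y772.NZ.one K)) s

lemma zl_exp {s : ℂ} (hs : 1 < s.re) : cexp (Zl K s) = dedekindZeta K s := by
  rw [← Pool.Agent.Y772.NZ.LI_one K hs,
    Pool.Agent.Y772.DK.LI_eq_exp _ (Pool.Agent.Y772.NZ.one_norm K) hs]
  rfl

lemma zl_cont {s : ℂ} (hs : 1 < s.re) : ContinuousAt (Zl K) s :=
  (Pool.Agent.Y772.DK.LA_diff (Pool.Agent.Y772.DK.ee_zero _)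
    (Pool.Agent.Y772.DK.ee_le _ (Pool.Agent.Y772.NZ.one_norm K)) hs).1.continuousAt

/-- places and prime ideals -/
noncomputable def plEquiv : HeightOneSpectrum (𝓞 K) ≃ {𝔭 : Ideal (𝓞 K) // Prime 𝔭} where
  toFun v := ⟨v.asIdeal, v.prime⟩
  invFun 𝔭 := ⟨𝔭.1, Ideal.isPrime_of_prime 𝔭.2, 𝔭.2.ne_zero⟩
  left_inv _ := rfl
  right_inv _ := rfl

lemma zl_sum {s : ℂ} (hs : 1 < s.re) :
    HasSum (fun v : HeightOneSpectrum (𝓞 K) => -Complex.log (1 - (nm v : ℂ) ^ (-s))) (Zl K s) := by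
  have h1 := Pool.Agent.Y773.hasSum_log (Pool.Agent.Y772.NZ.one_norm K) hs
  rw [← (plEquiv K).hasSum_iff] at h1
  refine h1.congr_fun fun v => ?_
  have h2 : Pool.Agent.Y773.zz (Pool.Agent.Y772.NZ.one K) s v.asIdeal = (nm v : ℂ) ^ (-s) := by
    unfold Pool.Agent.Y773.zz
    rw [Pool.Agent.Y772.NZ.one_ne K v.ne_bot, one_mul]
    rfl
  change _ = -Complex.log (1 - Pool.Agent.Y773.zz (Pool.Agent.Y772.NZ.one K) s v.asIdeal)
  rw [h2]

lemma zl_lim {t : ℝ} (ht : t ≠ 0) :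
    ∃ l : ℂ, Tendsto (fun σ : ℝ => Zl K (1 + pt σ t)) (𝓝[>] 0) (𝓝 l) := by
  obtain ⟨g, hg, hgz⟩ := Pool.Agent.H484R2.continuation K t
  have hne := H332.PIT.cont_ne_zero (Pool.Agent.H484R2.continuation K) t hg hgz
  have hpath : Tendsto (fun σ : ℝ => 1 + pt σ t) (𝓝[>] 0) (𝓝 (1 + t * I)) := by
    have h1 : Continuous fun σ : ℝ => 1 + pt σ t := by
      unfold pt
      fun_prop
    have h2 := h1.tendsto 0
    have h3 : (1 : ℂ) + pt 0 t = 1 + t * I := by simp [pt]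
    rw [h3] at h2
    exact h2.mono_left nhdsWithin_le_nhds
  have htI : (t : ℂ) * I ≠ 0 := mul_ne_zero (by exact_mod_cast ht) I_ne_zero
  refine lift_limit (c := g (1 + t * I) / (t * I)) (fun σ hσ => ?_) (div_ne_zero hne htI) ?_
  · have h1 : ContinuousAt (fun σ : ℝ => 1 + pt σ t) σ := by
      unfold pt
      fun_prop
    exact ContinuousAt.comp (f := fun σ : ℝ => 1 + pt σ t) (zl_cont K (by simpa using hσ)) h1
  · have h1 : Tendsto (fun σ : ℝ => g (1 + pt σ t) / (1 + pt σ t - 1)) (𝓝[>] 0)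
        (𝓝 (g (1 + t * I) / (1 + t * I - 1))) :=
      (hg.continuousAt.tendsto.comp hpath).div (hpath.sub_const 1) (by simpa using htI)
    rw [add_sub_cancel_left] at h1
    refine h1.congr' ?_
    filter_upwards [hpath.eventually hgz, self_mem_nhdsWithin] with σ h2 h3
    have hre : 1 < (1 + pt σ t).re := by simpa using h3
    have h4 : (1 + pt σ t - 1 : ℂ) ≠ 0 := by
      intro h
      have h5 := congrArg Complex.re h
      simp only [add_sub_cancel_left, pt_re, Complex.zero_re] at h5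
      have h3' : (0 : ℝ) < σ := h3
      linarith
    rw [h2 hre, zl_exp K hre, mul_div_cancel_left₀ _ h4]

lemma zeta_bd : ∃ C : ℝ, 0 < C ∧ ∀ σ : ℝ, 0 < σ → σ ≤ 1 → ∀ t : ℝ, |t| ≤ 1 →
    ‖pt σ t * dedekindZeta K (1 + pt σ t)‖ ≤ C := by
  have hQ : IsCompact (Icc (1 : ℝ) 2 ×ℂ Icc (-1 : ℝ) 1) := isCompact_Icc.reProdIm isCompact_Icc
  obtain ⟨C, hC⟩ : ∃ C : ℝ, ∀ z ∈ (Icc (1 : ℝ) 2 ×ℂ Icc (-1 : ℝ) 1), 1 < z.re →
      ‖(z - 1) * dedekindZeta K z‖ ≤ C := by
    refine hQ.induction_on (p := fun s : Set ℂ => ∃ C : ℝ, ∀ z ∈ s, 1 < z.re →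
      ‖(z - 1) * dedekindZeta K z‖ ≤ C) ⟨0, fun z hz => hz.elim⟩ ?_ ?_ ?_
    · rintro s t hst ⟨C, hC⟩
      exact ⟨C, fun z hz => hC z (hst hz)⟩
    · rintro s t ⟨C, hC⟩ ⟨C', hC'⟩
      refine ⟨max C C', fun z hz h1 => ?_⟩
      rcases hz with hz | hz
      · exact (hC z hz h1).trans (le_max_left _ _)
      · exact (hC' z hz h1).trans (le_max_right _ _)
    · intro x hx
      have hx1 : 1 ≤ x.re := hx.1.1
      rcases hx1.eq_or_lt with h | h
      · obtain ⟨g, hg, hgz⟩ := Pool.Agent.H484R2.continuation K x.im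
        have hxe : (1 : ℂ) + x.im * I = x := by
          apply Complex.ext <;> simp [← h]
        rw [hxe] at hg hgz
        have h2 : ∀ᶠ z in 𝓝 x, ‖g z‖ < ‖g x‖ + 1 :=
          (hg.continuousAt.norm).eventually (gt_mem_nhds (by linarith))
        refine ⟨{z | (1 < z.re → g z = (z - 1) * dedekindZeta K z) ∧ ‖g z‖ < ‖g x‖ + 1},
          mem_nhdsWithin_of_mem_nhds (hgz.and h2), ‖g x‖ + 1, fun z hz h3 => ?_⟩
        rw [← hz.1 h3]
        exact hz.2.le
      · have hc : ContinuousAt (fun z => (z - 1) * dedekindZeta K z) x :=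
          (continuousAt_id.sub continuousAt_const).mul (H332.PIT.zeta_analyticAt h).continuousAt
        have h2 := hc.norm.eventually (gt_mem_nhds
          (show ‖(x - 1) * dedekindZeta K x‖ < ‖(x - 1) * dedekindZeta K x‖ + 1 by linarith))
        exact ⟨_, mem_nhdsWithin_of_mem_nhds h2, ‖(x - 1) * dedekindZeta K x‖ + 1,
          fun z hz _ => le_of_lt hz⟩
  refine ⟨|C| + 1, by positivity, fun σ h0 h1 t ht => ?_⟩
  have h2 := hC (1 + pt σ t) ⟨⟨by simpa using h0.le, by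
      simp only [Complex.add_re, Complex.one_re, pt_re]; linarith⟩, by
    have : (1 + pt σ t).im = t := by simp [pt]
    rw [mem_preimage, this]
    exact abs_le.1 ht⟩ (by simpa using h0)
  rw [add_sub_cancel_left] at h2
  linarith [le_abs_self C]

/-! ### The majorant -/

variable {K}

open Classical in
/-- the radii -/
noncomputable def rho (S : Finset (HeightOneSpectrum (𝓞 K))) (v : HeightOneSpectrum (𝓞 K)) : ℝ :=
  if v ∈ S then (nm v : ℝ) ^ (-(1 / 2) : ℝ) else (nm v : ℝ) ^ (-1 : ℝ)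

/-- half of the majorant -/
noncomputable def G0 (S : Finset (HeightOneSpectrum (𝓞 K))) (s : ℂ) : ℂ :=
  ∑' v, -Complex.log (1 - (rho S v : ℂ) * (nm v : ℂ) ^ (-s))

lemma nm1 (v : HeightOneSpectrum (𝓞 K)) : (1 : ℝ) ≤ nm v := by
  have := two_le_nm v
  exact_mod_cast (by omega : 1 ≤ nm v)

lemma rho_nonneg (S : Finset (HeightOneSpectrum (𝓞 K))) (v : HeightOneSpectrum (𝓞 K)) :
    0 ≤ rho S v := by
  unfold rho
  split_ifs <;> positivity

lemma rho_le (S : Finset (HeightOneSpectrum (𝓞 K))) (v : HeightOneSpectrum (𝓞 K)) :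
    rho S v ≤ 1 := by
  unfold rho
  split_ifs
  · exact Real.rpow_le_one_of_one_le_of_nonpos (nm1 v) (by norm_num)
  · exact Real.rpow_le_one_of_one_le_of_nonpos (nm1 v) (by norm_num)

lemma rho_summable (S : Finset (HeightOneSpectrum (𝓞 K))) (σ : ℝ) (hσ : 0 < σ) :
    Summable fun v : HeightOneSpectrum (𝓞 K) => rho S v * (nm v : ℝ) ^ (-σ) := by
  classical
  have h1 := nm_summable (K := K) (x := 1 + σ) (by linarith)
  have h2 : Summable fun v : HeightOneSpectrum (𝓞 K) => if v ∈ S then (1 : ℝ) else 0 :=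
    summable_of_ne_finset_zero (s := S) fun v hv => if_neg hv
  refine Summable.of_nonneg_of_le (fun v => mul_nonneg (rho_nonneg S v) (by positivity))
    (fun v => ?_) (h1.add h2)
  have h0 : (0 : ℝ) < nm v := by linarith [nm1 v]
  by_cases hv : v ∈ S
  · rw [if_pos hv]
    have h3 : rho S v * (nm v : ℝ) ^ (-σ) ≤ 1 * 1 :=
      mul_le_mul (rho_le S v) (Real.rpow_le_one_of_one_le_of_nonpos (nm1 v) (by linarith))
        (by positivity) zero_le_one
    have h4 : (0 : ℝ) ≤ (nm v : ℝ) ^ (-(1 + σ)) := by positivity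
    linarith
  · rw [if_neg hv, add_zero, rho, if_neg hv, ← Real.rpow_add h0]
    apply le_of_eq
    congr 1
    ring

/-- the correction at the finitely many places -/
noncomputable def Hc (S : Finset (HeightOneSpectrum (𝓞 K))) (s : ℂ) : ℂ :=
  ∑ v ∈ S, (-Complex.log (1 - (((nm v : ℝ) ^ (-(1 / 2) : ℝ) : ℝ) : ℂ) * (nm v : ℂ) ^ (-s)) +
    Complex.log (1 - (nm v : ℂ) ^ (-(1 + s))))

lemma nmC_ne (v : HeightOneSpectrum (𝓞 K)) : (nm v : ℂ) ≠ 0 := by
  have := two_le_nm v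
  exact_mod_cast (by omega : nm v ≠ 0)

lemma inv_cpow (v : HeightOneSpectrum (𝓞 K)) (s : ℂ) :
    (((nm v : ℝ) ^ (-1 : ℝ) : ℝ) : ℂ) * (nm v : ℂ) ^ (-s) = (nm v : ℂ) ^ (-(1 + s)) := by
  rw [neg_add, Complex.cpow_add _ _ (nmC_ne v), Real.rpow_neg_one, Complex.cpow_neg_one]
  push_cast
  rfl

lemma g0_eq (S : Finset (HeightOneSpectrum (𝓞 K))) {s : ℂ} (hs : 0 < s.re) :
    G0 S s = Zl K (1 + s) + Hc S s := by
  classical
  have h1 := zl_sum K (s := 1 + s) (by simpa using hs)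
  have h2 : HasSum (fun v : HeightOneSpectrum (𝓞 K) => if v ∈ S then
      (-Complex.log (1 - (((nm v : ℝ) ^ (-(1 / 2) : ℝ) : ℝ) : ℂ) * (nm v : ℂ) ^ (-s)) +
        Complex.log (1 - (nm v : ℂ) ^ (-(1 + s)))) else 0) (Hc S s) := by
    have h3 : HasSum (fun v : HeightOneSpectrum (𝓞 K) => if v ∈ S then
      (-Complex.log (1 - (((nm v : ℝ) ^ (-(1 / 2) : ℝ) : ℝ) : ℂ) * (nm v : ℂ) ^ (-s)) +
        Complex.log (1 - (nm v : ℂ) ^ (-(1 + s)))) else 0) (∑ v ∈ S, if v ∈ S then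
      (-Complex.log (1 - (((nm v : ℝ) ^ (-(1 / 2) : ℝ) : ℝ) : ℂ) * (nm v : ℂ) ^ (-s)) +
        Complex.log (1 - (nm v : ℂ) ^ (-(1 + s)))) else 0) :=
      hasSum_sum_of_ne_finset_zero fun v hv => if_neg hv
    rw [Finset.sum_congr rfl (fun v hv => if_pos hv)] at h3
    exact h3
  have h4 : HasSum (fun v : HeightOneSpectrum (𝓞 K) =>
      -Complex.log (1 - (rho S v : ℂ) * (nm v : ℂ) ^ (-s))) (Zl K (1 + s) + Hc S s) := by
    refine (h1.add h2).congr_fun fun v => ?_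
    by_cases hv : v ∈ S
    · rw [if_pos hv, rho, if_pos hv]
      ring
    · rw [if_neg hv, rho, if_neg hv, inv_cpow, add_zero]
  exact h4.tsum_eq

lemma half_mul_cpow (v : HeightOneSpectrum (𝓞 K)) (s : ℂ) :
    ‖(((nm v : ℝ) ^ (-(1 / 2) : ℝ) : ℝ) : ℂ) * (nm v : ℂ) ^ (-s)‖ =
      (nm v : ℝ) ^ (-(1 / 2 + s.re)) := by
  have h0 : (0 : ℝ) < nm v := by linarith [nm1 v]
  rw [norm_mul, Complex.norm_real, Real.norm_of_nonneg (by positivity),
    norm_cpow_neg v (two_le_nm v), ← Real.rpow_add h0]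
  congr 1
  ring

lemma slit_of_norm {z : ℂ} (hz : ‖z‖ < 1) : 1 - z ∈ Complex.slitPlane := by
  left
  rw [Complex.sub_re, Complex.one_re]
  have := (Complex.re_le_norm z).trans_lt hz
  linarith

lemma cpow_neg_cont (v : HeightOneSpectrum (𝓞 K)) : Continuous fun s : ℂ => (nm v : ℂ) ^ (-s) :=
  continuous_neg.const_cpow (Or.inl (nmC_ne v))

lemma hc_cont (S : Finset (HeightOneSpectrum (𝓞 K))) {s : ℂ} (hs : -(1 / 2) < s.re) :
    ContinuousAt (Hc S) s := by
  unfold Hc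
  refine tendsto_finsetSum _ fun v _ => ?_
  have hc : ContinuousAt (fun s : ℂ => (nm v : ℂ) ^ (-s)) s := (cpow_neg_cont v).continuousAt
  have hc' : ContinuousAt (fun s : ℂ => (nm v : ℂ) ^ (-(1 + s))) s :=
    ((cpow_neg_cont v).comp (continuous_const.add continuous_id)).continuousAt
  have h1 : 1 - (((nm v : ℝ) ^ (-(1 / 2) : ℝ) : ℝ) : ℂ) * (nm v : ℂ) ^ (-s) ∈
      Complex.slitPlane := by
    refine slit_of_norm ?_
    rw [half_mul_cpow]
    exact rpow_lt_one v (two_le_nm v) (by linarith)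
  have h2 : 1 - (nm v : ℂ) ^ (-(1 + s)) ∈ Complex.slitPlane := by
    refine slit_of_norm ?_
    rw [norm_cpow_neg v (two_le_nm v)]
    exact rpow_lt_one v (two_le_nm v) (by simp only [Complex.add_re, Complex.one_re]; linarith)
  exact ((continuousAt_const.sub (continuousAt_const.mul hc)).clog h1).neg.add
    ((continuousAt_const.sub hc').clog h2)

lemma hc_bd (S : Finset (HeightOneSpectrum (𝓞 K))) : ∃ C : ℝ, ∀ σ : ℝ, 0 < σ → σ ≤ 1 →
    ∀ t : ℝ, |t| ≤ 1 → ‖Hc S (pt σ t)‖ ≤ C := by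
  have hQ : IsCompact (Icc (0 : ℝ) 1 ×ℂ Icc (-1 : ℝ) 1) := isCompact_Icc.reProdIm isCompact_Icc
  obtain ⟨C, hC⟩ := hQ.exists_bound_of_continuousOn (f := Hc S) fun z hz =>
    (hc_cont S (by have := hz.1.1; linarith)).continuousWithinAt
  refine ⟨C, fun σ h0 h1 t ht => hC _ ⟨⟨by simpa using h0.le, by simpa using h1⟩, ?_⟩⟩
  have : (pt σ t).im = t := by simp [pt]
  rw [mem_preimage, this]
  exact abs_le.1 ht

/-- the majorant of the logarithm of a product of degree two -/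
noncomputable def GK (S : Finset (HeightOneSpectrum (𝓞 K))) (s : ℂ) : ℂ := G0 S s + G0 S s

theorem gk_edge (S : Finset (HeightOneSpectrum (𝓞 K))) : Edge (GK S) := by
  have hmaj := (majH_log (N := fun v : HeightOneSpectrum (𝓞 K) => nm v) (two_le_nm)
    (c := fun v => (rho S v : ℂ)) (ρ := rho S) (fun v => by
      rw [Complex.norm_real, Real.norm_of_nonneg (rho_nonneg S v)]) (rho_le S)
    (rho_summable S)).1
  refine ⟨hmaj.add hmaj, fun t ht => ?_, ?_⟩
  · obtain ⟨l, hl⟩ := zl_lim K ht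
    have hH : Tendsto (fun σ : ℝ => Hc S (pt σ t)) (𝓝[>] 0) (𝓝 (Hc S (pt 0 t))) := by
      have h1 : Continuous fun σ : ℝ => pt σ t := by
        unfold pt
        fun_prop
      have h2 : ContinuousAt (fun σ : ℝ => Hc S (pt σ t)) 0 :=
        ContinuousAt.comp (f := fun σ : ℝ => pt σ t) (hc_cont S (by simp)) h1.continuousAt
      exact h2.tendsto.mono_left nhdsWithin_le_nhds
    have h3 := (hl.add hH).add (hl.add hH)
    refine ⟨_, h3.congr' ?_⟩
    filter_upwards [self_mem_nhdsWithin] with σ hσ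
    rw [GK, g0_eq S (by simpa using hσ)]
  · obtain ⟨C, hC, hb⟩ := zeta_bd K
    obtain ⟨C', hb'⟩ := hc_bd S
    refine ⟨(C * Real.exp C') ^ 2, by positivity, fun σ h0 h1 t ht ht0 => ?_⟩
    have ht' : 0 < |t| := abs_pos.2 ht0
    have h2 := hb σ h0 h1 t ht
    have h3 := hb' σ h0 h1 t ht
    have hre : 1 < (1 + pt σ t).re := by simpa using h0
    rw [GK, g0_eq S (by simpa using h0), Complex.exp_add, Complex.exp_add, zl_exp K hre, norm_mul,
      norm_mul]
    rw [norm_mul] at h2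
    have h4 : |t| ≤ ‖pt σ t‖ := by
      have := Complex.abs_im_le_norm (pt σ t)
      simpa [pt] using this
    have h5 : ‖dedekindZeta K (1 + pt σ t)‖ ≤ C * |t|⁻¹ := by
      rw [← div_eq_mul_inv, le_div_iff₀ ht']
      calc _ ≤ ‖dedekindZeta K (1 + pt σ t)‖ * ‖pt σ t‖ :=
            mul_le_mul_of_nonneg_left h4 (norm_nonneg _)
        _ ≤ C := by linarith
    have h6 : ‖cexp (Hc S (pt σ t))‖ ≤ Real.exp C' := by
      rw [Complex.norm_exp]
      exact Real.exp_le_exp.2 ((Complex.re_le_norm _).trans h3)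
    have h7 : ‖dedekindZeta K (1 + pt σ t)‖ * ‖cexp (Hc S (pt σ t))‖ ≤ C * |t|⁻¹ * Real.exp C' :=
      mul_le_mul h5 h6 (norm_nonneg _) (by positivity)
    have h8 : 0 ≤ ‖dedekindZeta K (1 + pt σ t)‖ * ‖cexp (Hc S (pt σ t))‖ := by positivity
    calc _ ≤ (C * |t|⁻¹ * Real.exp C') * (C * |t|⁻¹ * Real.exp C') :=
          mul_le_mul h7 h7 h8 (h8.trans h7)
      _ = (C * Real.exp C') ^ 2 * |t| ^ (-2 : ℝ) := by
          have : |t| ^ (-2 : ℝ) = (|t|⁻¹) ^ 2 := by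
            rw [Real.rpow_neg ht'.le, inv_pow]
            norm_num
          rw [this]
          ring

end Pool.Agent.W5h26.EP
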